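import Pool.Agent.H820.PC.Defs

/-!
Symplectic forms on the complex projective plane which are positive, on each round sphere about a
point, on one of the contact structures which are invariant under `SU(2)`: the definitions used in
the statement of the result.
-/

set_option autoImplicit false

open Set Topology
open scoped ContDiff

noncomputable section

namespace Pool.Agent.H820.RT

open Pool.Agent.H820.PC

/-- the point of `ℂ³` with the coordinates `a`, `b`, `c` -/
def mk (a b c : ℂ) : C3 := WithLp.toLp 2 ![a, b, c]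

/-- the point `(1, x₁, x₂)` of `ℂℙ²`, for `x` in the affine chart `ℂ²` -/
def pt (x : Fin 2 → ℂ) : C3 := mk 1 (x 0) (x 1)

/-- a vector in `ℂ²` as a tangent vector of `ℂℙ²` in the affine chart -/
def vec (v : Fin 2 → ℂ) : C3 := mk 0 (v 0) (v 1)

/-- the quaternion `i` acting on `ℂ²` -/
def qI (x : Fin 2 → ℂ) : Fin 2 → ℂ := ![Complex.I * x 0, Complex.I * x 1]

/-- the quaternion `j` acting on `ℂ²` -/
def qJ (x : Fin 2 → ℂ) : Fin 2 → ℂ := ![-(starRingEnd ℂ) (x 1), (starRingEnd ℂ) (x 0)]

/-- the quaternion `k = i j` acting on `ℂ²` -/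
def qK (x : Fin 2 → ℂ) : Fin 2 → ℂ :=
  ![-(Complex.I * (starRingEnd ℂ) (x 1)), Complex.I * (starRingEnd ℂ) (x 0)]

/-- Up to the factor `|u| |x|²`, this is the value of `Ω` on an oriented orthonormal basis of the
plane which is orthogonal, in the tangent space `⟨i x, j x, k x⟩` at `x` of the sphere of radius
`|x|`, to the vector `u₀ i x + u₁ j x + u₂ k x`. -/
def area (Ω : TwoForm) (u : Fin 3 → ℝ) (x : Fin 2 → ℂ) : ℝ :=
  u 0 * ev Ω (pt x) (vec (qJ x)) (vec (qK x)) + u 1 * ev Ω (pt x) (vec (qK x)) (vec (qI x)) +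
    u 2 * ev Ω (pt x) (vec (qI x)) (vec (qJ x))

/-- `Ω` is a symplectic form on `ℂℙ²` in the class of the Fubini-Study form, which is positive on
the line `{z₀ = 0}`, and such that for each sphere of radius `r > 0` in the affine chart `ℂ²` there
is a vector `u = (u₀, u₁, u₂)` such that `Ω` is positive on the planes which are orthogonal to
`u₀ i x + u₁ j x + u₂ k x` in the tangent spaces of the sphere (a contact structure which is
invariant under `SU(2)`). -/
structure Rotating (Ω : TwoForm) : Prop where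
  symplectic : IsSymplectic Ω
  line : ∀ z v : C3, z ≠ 0 → z 0 = 0 → v 0 = 0 → (∀ c : ℂ, v ≠ c • z) → 0 < ev Ω z v (J v)
  spheres : ∀ r : ℝ, 0 < r → ∃ u : Fin 3 → ℝ, ∀ x : Fin 2 → ℂ,
    ‖x 0‖ ^ 2 + ‖x 1‖ ^ 2 = r ^ 2 → 0 < area Ω u x

end Pool.Agent.H820.RT
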