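import Pool.Agent.H820.RT.Path

/-!
The space of the forms is contractible.
-/

set_option autoImplicit false

open Set Topology Filter
open scoped ContDiff unitInterval

noncomputable section

namespace Pool.Agent.H820.RT

open Pool.Agent.H820.PC

instance instNeg : ContinuousNeg TwoForm := ⟨by
  have h : (fun x : TwoForm => -x) = fun x => (-1 : ℝ) • x := by
    funext x
    rw [neg_one_smul]
  rw [h]
  exact continuous_const_smul _⟩

instance instTopGroup : IsTopologicalAddGroup TwoForm where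

/-- the smooth functions -/
abbrev MM : Type := {μ : ℝ → ℝ // ContDiff ℝ ∞ μ}

/-- the space of the forms -/
abbrev XX : Type := {Ω : TwoForm // RotP Ω}

theorem eventually_pos {A : TwoForm → ℝ} (hA : Continuous A) {Ω : TwoForm} (h : 0 < A Ω) :
    ∀ᶠ Ω' in 𝓝 Ω, 0 < A Ω' := hA.continuousAt.eventually (lt_mem_nhds h)

/-- the condition on the curve is open in the form -/
theorem eventually_adm {Ω : TwoForm} {U : ℝ → Fin 3 → ℝ} (hU : ContDiff ℝ ∞ U) (h : Adm Ω U) :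
    ∀ᶠ Ω' in 𝓝 Ω, Adm Ω' U := by
  have h1 : Continuous fun x : TwoForm × PS => ∑ i, YY U (x.2.1.1 ^ 2) i *
      pp x.1 x.2.1.1 x.2.1.2.1 x.2.1.2.2 i := by
    refine continuous_finsetSum _ fun i _ => ?_
    refine Continuous.mul ?_ (continuous_pp i)
    exact (continuous_YY hU i).comp (by fun_prop)
  have h2 := isCompact_univ.eventually_forall_of_forall_eventually (x₀ := Ω)
    (K := (univ : Set PS)) (P := fun Ω' x => 0 < ∑ i, YY U (x.1.1 ^ 2) i *
      pp Ω' x.1.1 x.1.2.1 x.1.2.2 i)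
    (fun x _ => h1.continuousAt.eventually (lt_mem_nhds (h.pos _ _ _ x.2)))
  have h3 : Continuous fun Ω : TwoForm => ∑ i, YY U 1 i * SS Ω i :=
    continuous_finsetSum _ fun i _ => continuous_const.mul (continuous_SS i)
  filter_upwards [h2, eventually_pos h3 h.top] with Ω' h4 h5
  exact ⟨fun s c y hp => h4 ⟨(s, c, y), hp⟩ (mem_univ _), h5⟩

theorem YY_comb {U V W : ℝ → Fin 3 → ℝ} {a b : ℝ} (hab : a + b = 1)
    (h : ∀ t i, W t i = a * U t i + b * V t i) (t : ℝ) (i : Fin 3) :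
    YY W t i = a * YY U t i + b * YY V t i := by
  unfold YY
  rw [h]
  split_ifs
  · linear_combination -hab
  · ring

theorem adm_comb {Ω : TwoForm} {U V W : ℝ → Fin 3 → ℝ} {a b : ℝ} (ha : 0 ≤ a) (hb : 0 ≤ b)
    (hab : a + b = 1) (h : ∀ t i, W t i = a * U t i + b * V t i) (hU : Adm Ω U) (hV : Adm Ω V) :
    Adm Ω W := by
  have hY : ∀ t, YY W t = a • YY U t + b • YY V t := fun t => funext fun i => YY_comb hab h t i
  refine ⟨fun s c y hp => ?_, ?_⟩
  · rw [hY]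
    exact pos_comb (hU.pos s c y hp) (hV.pos s c y hp) ha hb hab
  · rw [hY]
    exact pos_comb hU.top hV.top ha hb hab

/-- the first family of convex sets -/
def t1 (Ω : XX) : Set (MM → C(I, TwoForm)) :=
  {φ | ∃ (U : ℝ → Fin 3 → ℝ) (hU : ContDiff ℝ ∞ U), Adm Ω.1 U ∧
    ∀ μ : MM, φ μ = PP (mulG μ.1 U) (contDiff_mulG μ.2 hU)}

theorem convex_t1 (Ω : XX) : Convex ℝ (t1 Ω) := by
  rintro φ ⟨U, hU, h1, h2⟩ ψ ⟨V, hV, h3, h4⟩ a b ha hb hab
  refine ⟨fun t i => a * U t i + b * V t i, ?_, ?_, ?_⟩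
  · rw [contDiff_pi]
    intro i
    exact (contDiff_const.mul (contDiff_pi.1 hU i)).add (contDiff_const.mul (contDiff_pi.1 hV i))
  · exact adm_comb ha hb hab (fun _ _ => rfl) h1 h3
  · intro μ
    show a • φ μ + b • ψ μ = _
    rw [h2, h4]
    symm
    apply PP_comb _ _ _ hab
    intro t i
    unfold mulG
    split_ifs
    · linear_combination -(μ.1 t) * hab
    · ring

theorem exists_g1 : ∃ g : C(XX, MM → C(I, TwoForm)), ∀ Ω, g Ω ∈ t1 Ω := by
  let _ : PseudoMetricSpace TwoForm := TopologicalSpace.pseudoMetrizableSpacePseudoMetric TwoForm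
  apply exists_continuous_forall_mem_convex_of_local_const convex_t1
  intro Ω
  obtain ⟨U, hU, hA⟩ := exists_curve Ω.2
  refine ⟨fun μ => PP (mulG μ.1 U) (contDiff_mulG μ.2 hU), ?_⟩
  have h1 : ∀ᶠ Ω' : XX in 𝓝 Ω, Adm Ω'.1 U :=
    continuousAt_subtype_val.eventually (eventually_adm hU hA)
  filter_upwards [h1] with Ω' h2
  exact ⟨U, hU, h2, fun _ => rfl⟩

/-- the conditions on the function -/
structure Good (Ω : TwoForm) (U : ℝ → Fin 3 → ℝ) (hU : ContDiff ℝ ∞ U) (μ : MM) : Prop where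
  pos : ∀ t : ℝ, 0 ≤ t → t ≤ 1 → 0 < 1 + t * μ.1 t
  dd : ∀ t : ℝ, 0 ≤ t → t ≤ 1 → 0 < DD (mulG μ.1 U) t
  wd : ∀ (s c : ℝ) (y : Fin 2 → ℂ), Par s c y → 0 < wd (Ω.1 (zz s c y))
    ((KG _ (contDiff_mulG μ.2 hU)).1 (zz s c y)) (qq y) (rr s c y)

theorem dm_comb {μ ν ρ : ℝ → ℝ} (hμ : ContDiff ℝ ∞ μ) (hν : ContDiff ℝ ∞ ν) {a b : ℝ}
    (h : ∀ t, ρ t = a * μ t + b * ν t) (t : ℝ) : dm ρ t = a * dm μ t + b * dm ν t := by
  have h1 : ρ = fun t => a * μ t + b * ν t := funext h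
  have h2 : HasDerivAt (fun t => a * μ t + b * ν t) (a * deriv μ t + b * deriv ν t) t :=
    ((hμ.differentiable (by simp) t).hasDerivAt.const_mul a).add
      ((hν.differentiable (by simp) t).hasDerivAt.const_mul b)
  unfold dm
  rw [h1, h2.deriv]
  ring

theorem good_comb {Ω : TwoForm} {U : ℝ → Fin 3 → ℝ} {hU : ContDiff ℝ ∞ U} {μ ν ρ : MM}
    (h1 : Good Ω U hU μ) (h2 : Good Ω U hU ν) {a b : ℝ} (ha : 0 ≤ a) (hb : 0 ≤ b)
    (hab : a + b = 1) (h : ∀ t, ρ.1 t = a * μ.1 t + b * ν.1 t) : Good Ω U hU ρ := by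
  have key : ∀ {x y : ℝ}, 0 < x → 0 < y → 0 < a * x + b * y := by
    intro x y hx hy
    rcases ha.eq_or_lt with h0 | h0
    · rw [← h0] at hab ⊢
      have : b = 1 := by linarith
      rw [this]
      linarith
    · have := mul_pos h0 hx
      have := mul_nonneg hb hy.le
      linarith
  have hm : ∀ t, 1 + t * ρ.1 t = a * (1 + t * μ.1 t) + b * (1 + t * ν.1 t) := by
    intro t
    rw [h]
    linear_combination -hab
  have hp : ∀ t : ℝ, 0 ≤ t → t ≤ 1 → 0 < 1 + t * ρ.1 t := by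
    intro t ht0 ht1
    rw [hm]
    exact key (h1.pos t ht0 ht1) (h2.pos t ht0 ht1)
  refine ⟨hp, ?_, ?_⟩
  · intro t ht0 ht1
    have k1 := h1.dd t ht0 ht1
    have k2 := h2.dd t ht0 ht1
    rw [DD_mulG μ.2 hU] at k1
    rw [DD_mulG ν.2 hU] at k2
    rw [DD_mulG ρ.2 hU]
    have k1' := (pos_iff_pos_of_mul_pos k1).1 (h1.pos t ht0 ht1)
    have k2' := (pos_iff_pos_of_mul_pos k2).1 (h2.pos t ht0 ht1)
    apply mul_pos (hp t ht0 ht1)
    rw [dm_comb μ.2 ν.2 h, hm]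
    have := key k1' k2'
    linarith
  · intro s c y hpar
    have k1 := h1.wd s c y hpar
    have k2 := h2.wd s c y hpar
    rw [wd_mulG Ω μ.2 hU hpar] at k1
    rw [wd_mulG Ω ν.2 hU hpar] at k2
    rw [wd_mulG Ω ρ.2 hU hpar]
    rw [dm_comb μ.2 ν.2 h, hm]
    have := key k1 k2
    linarith

theorem eventually_wds {A B : XX → TwoForm} (hA : Continuous A) (hB : Continuous B) {Ω : XX}
    (h : ∀ (s c : ℝ) (y : Fin 2 → ℂ), Par s c y → 0 < wd ((A Ω).1 (zz s c y))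
      ((B Ω).1 (zz s c y)) (qq y) (rr s c y)) :
    ∀ᶠ Ω' in 𝓝 Ω, ∀ (s c : ℝ) (y : Fin 2 → ℂ), Par s c y → 0 < wd ((A Ω').1 (zz s c y))
      ((B Ω').1 (zz s c y)) (qq y) (rr s c y) := by
  have h1 : Continuous fun x : XX × PS => wd ((A x.1).1 (zp x.2)) ((B x.1).1 (zp x.2))
      (qq x.2.1.2.2) (rr x.2.1.1 x.2.1.2.1 x.2.1.2.2) :=
    continuous_wds.comp ((hA.comp continuous_fst).prodMk ((hB.comp continuous_fst).prodMk
      continuous_snd))
  have h2 := isCompact_univ.eventually_forall_of_forall_eventually (x₀ := Ω)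
    (K := (univ : Set PS)) (P := fun Ω' x => 0 < wd ((A Ω').1 (zp x)) ((B Ω').1 (zp x))
      (qq x.1.2.2) (rr x.1.1 x.1.2.1 x.1.2.2))
    (fun x _ => h1.continuousAt.eventually (lt_mem_nhds (h _ _ _ x.2)))
  filter_upwards [h2] with Ω' h4 s c y hp
  exact h4 ⟨(s, c, y), hp⟩ (mem_univ _)

/-- a continuous choice of adapted invariant forms, with their contractions -/
theorem exists_g2 : ∃ (U : XX → ℝ → Fin 3 → ℝ) (hU : ∀ Ω, ContDiff ℝ ∞ (U Ω)) (μ : XX → MM)
    (g : C(XX, C(I, TwoForm))), ∀ Ω, Adm Ω.1 (U Ω) ∧ Good Ω.1 (U Ω) (hU Ω) (μ Ω) ∧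
      g Ω = PP (mulG (μ Ω).1 (U Ω)) (contDiff_mulG (μ Ω).2 (hU Ω)) := by
  obtain ⟨g1, hg1⟩ := exists_g1
  choose U hU hA hφ using hg1
  let t2 : XX → Set C(I, TwoForm) := fun Ω => {P | ∃ μ : MM, Good Ω.1 (U Ω) (hU Ω) μ ∧
    P = PP (mulG μ.1 (U Ω)) (contDiff_mulG μ.2 (hU Ω))}
  have hconv : ∀ Ω, Convex ℝ (t2 Ω) := by
    rintro Ω P ⟨μ, h1, h2⟩ Q ⟨ν, h3, h4⟩ a b ha hb hab
    refine ⟨⟨fun t => a * μ.1 t + b * ν.1 t,
      (contDiff_const.mul μ.2).add (contDiff_const.mul ν.2)⟩,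
      good_comb h1 h3 ha hb hab (fun _ => rfl), ?_⟩
    rw [h2, h4]
    symm
    apply PP_comb _ _ _ hab
    intro t i
    unfold mulG
    have e : U Ω t i = (a + b) * U Ω t i := by rw [hab, one_mul]
    split_ifs
    · linear_combination e
    · linear_combination e
  have hg : ∃ g : C(XX, C(I, TwoForm)), ∀ Ω, g Ω ∈ t2 Ω := by
    let _ : PseudoMetricSpace TwoForm := TopologicalSpace.pseudoMetrizableSpacePseudoMetric TwoForm
    apply exists_continuous_forall_mem_convex_of_local hconv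
    intro Ω
    obtain ⟨μ, hμ, m1, m2, m3⟩ := exists_fun (hU Ω) (hA Ω)
    have c0 : Continuous fun Ω' : XX => g1 Ω' ⟨μ, hμ⟩ := (continuous_apply _).comp g1.continuous
    have c1 : Continuous fun Ω' : XX => (g1 Ω' ⟨μ, hμ⟩) 1 :=
      (continuous_eval_const (1 : I)).comp c0
    have e1 : ∀ Ω' : XX, (g1 Ω' ⟨μ, hμ⟩) 1 = KG _ (contDiff_mulG hμ (hU Ω')) := by
      intro Ω'
      rw [hφ, PP_one]
    have c2 : Continuous fun Ω' : XX => KG _ (contDiff_mulG hμ (hU Ω')) := by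
      simp only [← e1]
      exact c1
    have h1 := eventually_wds (A := fun Ω' : XX => Ω'.1) continuous_subtype_val c2 (Ω := Ω) m3
    have h2 := eventually_wds c2 c2 (Ω := Ω) (fun s c y hp => by
      rw [wd_self, pfA_KG _ hp]
      have := m2 (s ^ 2) (sq_nonneg _) (sc_le hp)
      linarith)
    refine ⟨_, h1.and h2, fun Ω' => g1 Ω' ⟨μ, hμ⟩, c0.continuousOn, ?_⟩
    rintro Ω' ⟨h3, h4⟩
    refine ⟨⟨μ, hμ⟩, ⟨m1, ?_, h3⟩, hφ Ω' ⟨μ, hμ⟩⟩
    intro t ht0 ht1
    obtain ⟨s, c, y, hp, hs⟩ := par_exists ht0 ht1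
    have h5 := h4 s c y hp
    rw [wd_self, pfA_KG _ hp, hs] at h5
    linarith
  obtain ⟨g, hg⟩ := hg
  choose μ hμ hP using hg
  exact ⟨U, hU, μ, g, fun Ω => ⟨hA Ω, hμ Ω, hP Ω⟩⟩

theorem DD_Z0 (t : ℝ) : DD Z0 t = 1 := by
  have h1 : ∀ i, YY Z0 t i = if i = 0 then 1 else 0 := by
    intro i
    unfold YY Z0
    simp
  have h3 : deriv Z0 t = 0 := by
    have : Z0 = fun _ => (0 : Fin 3 → ℝ) := rfl
    rw [this]
    simp
  have h2 : ∀ i, DY Z0 t i = 0 := by
    intro i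
    unfold DY
    rw [h3]
    unfold Z0
    simp
  unfold DD
  rw [Fin.sum_univ_three]
  simp [h1, h2]

theorem contractible_rotP : ContractibleSpace {Ω : TwoForm | RotP Ω} := by
  show ContractibleSpace XX
  rw [contractible_iff_id_nullhomotopic]
  obtain ⟨U, hU, μ, g, hg⟩ := exists_g2
  have hK : ∀ (Ω : XX) (τ : I), RotP (g Ω τ) := by
    intro Ω τ
    obtain ⟨h1, h2, h3⟩ := hg Ω
    rw [h3]
    have hs := contDiff_mulG (μ Ω).2 (hU Ω)
    exact rotP_KG (contDiff_scl τ hs) fun t ht0 ht1 => DD_scl τ.2.1 τ.2.2 hs h2.dd ht0 ht1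
  have hS : ∀ (Ω : XX) (τ : I), RotP ((1 - (τ : ℝ)) • Ω.1 + (τ : ℝ) • g Ω 1) := by
    intro Ω τ
    obtain ⟨h1, h2, h3⟩ := hg Ω
    rw [h3, PP_one]
    exact seg_rot Ω.2 (hU Ω) h1 (μ Ω).2 h2.pos h2.dd h2.wd τ.2.1 τ.2.2
  let g' : C(XX, XX) := ⟨fun Ω => ⟨g Ω 1, hK Ω 1⟩, Continuous.subtype_mk
    ((continuous_eval_const (1 : I)).comp g.continuous) _⟩
  have hZ : RotP (KG Z0 contDiff_Z0) := rotP_KG _ fun t _ _ => by
    rw [DD_Z0]
    exact one_pos
  refine ⟨⟨KG Z0 contDiff_Z0, hZ⟩, ?_⟩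
  have H1 : (ContinuousMap.id XX).Homotopic g' := ⟨{
    toFun := fun p => ⟨(1 - (p.1 : ℝ)) • p.2.1 + (p.1 : ℝ) • g p.2 1, hS p.2 p.1⟩
    continuous_toFun := by
      refine Continuous.subtype_mk ?_ _
      have c1 : Continuous fun p : I × XX => (p.1 : ℝ) := by fun_prop
      have c2 : Continuous fun p : I × XX => p.2.1 := by fun_prop
      have c3 : Continuous fun p : I × XX => g p.2 1 :=
        (continuous_eval_const (1 : I)).comp (g.continuous.comp continuous_snd)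
      exact ((continuous_const.sub c1).smul c2).add (c1.smul c3)
    map_zero_left := by
      intro Ω
      apply Subtype.ext
      simp
    map_one_left := by
      intro Ω
      apply Subtype.ext
      simp [g'] }⟩
  have H2 : g'.Homotopic (ContinuousMap.const XX ⟨KG Z0 contDiff_Z0, hZ⟩) := ⟨{
    toFun := fun p => ⟨g p.2 (unitInterval.symm p.1), hK p.2 _⟩
    continuous_toFun := by
      refine Continuous.subtype_mk ?_ _
      have c1 : Continuous fun p : I × XX => g p.2 := g.continuous.comp continuous_snd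
      have c2 : Continuous fun p : I × XX => unitInterval.symm p.1 :=
        unitInterval.continuous_symm.comp continuous_fst
      exact c1.eval c2
    map_zero_left := by
      intro Ω
      apply Subtype.ext
      simp [g']
    map_one_left := by
      intro Ω
      apply Subtype.ext
      have h3 := (hg Ω).2.2
      simp [h3, PP_zero] }⟩
  exact H1.trans H2

theorem contractible_rotating : ContractibleSpace {Ω : TwoForm | Rotating Ω} := by
  have e : {Ω : TwoForm | Rotating Ω} = {Ω : TwoForm | RotP Ω} := by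
    ext Ω
    exact rotating_iff Ω
  rw [e]
  exact contractible_rotP

end Pool.Agent.H820.RT
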