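import Pool.Agent.H820.RT.Cpt

/-!
Existence of the curve and of the function.
-/

set_option autoImplicit false

open Set Topology Filter
open scoped ContDiff Manifold

noncomputable section

namespace Pool.Agent.H820.RT

open Pool.Agent.H820.PC

/-- the conditions in terms of the parameters -/
structure RotP (Ω : TwoForm) : Prop where
  symplectic : IsSymplectic Ω
  line : ∀ (c : ℝ) (y : Fin 2 → ℂ), Par 0 c y → 0 < pp Ω 0 c y 0
  spheres : ∀ t : ℝ, 0 < t → t < 1 → ∃ u : Fin 3 → ℝ, ∀ (s c : ℝ) (y : Fin 2 → ℂ), Par s c y →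
    s ^ 2 = t → 0 < ∑ i, u i * pp Ω s c y i

/-- the curve is adapted to the form -/
structure Adm (Ω : TwoForm) (U : ℝ → Fin 3 → ℝ) : Prop where
  pos : ∀ (s c : ℝ) (y : Fin 2 → ℂ), Par s c y → 0 < ∑ i, YY U (s ^ 2) i * pp Ω s c y i
  top : 0 < ∑ i, YY U 1 i * SS Ω i

theorem continuous_sum_pp (Ω : TwoForm) (u : Fin 3 → ℝ) : Continuous fun x : PS =>
    ∑ i, u i * pp Ω x.1.1 x.1.2.1 x.1.2.2 i := by
  refine continuous_finsetSum _ fun i _ => ?_
  exact continuous_const.mul ((continuous_pp i).comp (continuous_const.prodMk continuous_id))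

/-- the tube lemma -/
theorem tube (Ω : TwoForm) (u : Fin 3 → ℝ) (t₀ : ℝ) (h : ∀ (s c : ℝ) (y : Fin 2 → ℂ), Par s c y →
    s ^ 2 = t₀ → 0 < ∑ i, u i * pp Ω s c y i) : ∀ᶠ t in 𝓝 t₀, ∀ (s c : ℝ) (y : Fin 2 → ℂ),
      Par s c y → s ^ 2 = t → 0 < ∑ i, u i * pp Ω s c y i := by
  set C : Set PS := {x | ∑ i, u i * pp Ω x.1.1 x.1.2.1 x.1.2.2 i ≤ 0} with hC
  have h1 : IsCompact C := (isClosed_le (continuous_sum_pp Ω u) continuous_const).isCompact
  have h2 : IsCompact ((fun x : PS => x.1.1 ^ 2) '' C) := h1.image (by fun_prop)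
  have h3 : t₀ ∉ (fun x : PS => x.1.1 ^ 2) '' C := by
    rintro ⟨x, hx, hx'⟩
    exact absurd (h _ _ _ x.2 hx') (not_lt.2 hx)
  filter_upwards [h2.isClosed.isOpen_compl.mem_nhds h3] with t ht s c y hp hs
  by_contra hcon
  exact ht ⟨⟨(s, c, y), hp⟩, not_lt.1 hcon, hs⟩

theorem par_one {s c : ℝ} {y : Fin 2 → ℂ} (h : Par s c y) (hs : s ^ 2 = 1) : s = 1 ∧ c = 0 := by
  have h1 := h.s0
  have h2 := h.sc
  have h3 := h.c0
  constructor
  · nlinarith
  · nlinarith

theorem par_top {y : Fin 2 → ℂ} (h : ‖y 0‖ ^ 2 + ‖y 1‖ ^ 2 = 1) : Par 1 0 y :=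
  ⟨zero_le_one, le_rfl, by norm_num, h⟩

theorem par_exists {t : ℝ} (h0 : 0 ≤ t) (h1 : t ≤ 1) : ∃ (s c : ℝ) (y : Fin 2 → ℂ), Par s c y ∧
    s ^ 2 = t := by
  refine ⟨√t, √(1 - t), ![1, 0], ⟨Real.sqrt_nonneg _, Real.sqrt_nonneg _, ?_, by simp⟩,
    Real.sq_sqrt h0⟩
  rw [Real.sq_sqrt h0, Real.sq_sqrt (by linarith)]
  ring

theorem top_pos {Ω : TwoForm} (h : IsSymplectic Ω) {y : Fin 2 → ℂ} (hp : Par 1 0 y) :
    0 < ∑ i, SS Ω i * pp Ω 1 0 y i ∧ 0 < ∑ i, SS Ω i * SS Ω i := by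
  have h1 : 0 < pfA (Ω.1 (zz 1 0 y)) (qq y) (rr 1 0 y) := frame_pos h.positive (isFrame_std hp)
  rw [pfA_top, Fin.sum_univ_three] at h1
  simp only [← pp_add_qv Ω hp, Fin.sum_univ_three]
  constructor
  · nlinarith [sq_nonneg (pp Ω 1 0 y 0), sq_nonneg (pp Ω 1 0 y 1), sq_nonneg (pp Ω 1 0 y 2)]
  · nlinarith [sq_nonneg (pp Ω 1 0 y 0), sq_nonneg (pp Ω 1 0 y 1), sq_nonneg (pp Ω 1 0 y 2),
      sq_nonneg (qv Ω 1 0 y 0), sq_nonneg (qv Ω 1 0 y 1), sq_nonneg (qv Ω 1 0 y 2)]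

/-- the first basis vector -/
def E0 (i : Fin 3) : ℝ := if i = 0 then 1 else 0

theorem sum_E0 (f : Fin 3 → ℝ) : ∑ i, E0 i * f i = f 0 := by
  rw [Fin.sum_univ_three]
  unfold E0
  simp

/-- the convex sets for the choice of the curve -/
def tset (Ω : TwoForm) (δ t : ℝ) : Set (Fin 3 → ℝ) :=
  {u | (t < δ → u = E0) ∧ ((t ≤ 1 → ∀ (s c : ℝ) (y : Fin 2 → ℂ), Par s c y → s ^ 2 = t →
    0 < ∑ i, u i * pp Ω s c y i) ∧ (t = 1 → 0 < ∑ i, u i * SS Ω i))}

theorem pos_comb {f : Fin 3 → ℝ} {u v : Fin 3 → ℝ} (hu : 0 < ∑ i, u i * f i)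
    (hv : 0 < ∑ i, v i * f i) {a b : ℝ} (ha : 0 ≤ a) (hb : 0 ≤ b) (hab : a + b = 1) :
    0 < ∑ i, (a • u + b • v) i * f i := by
  have e : ∑ i, (a • u + b • v) i * f i = a * ∑ i, u i * f i + b * ∑ i, v i * f i := by
    simp only [Fin.sum_univ_three, Pi.add_apply, Pi.smul_apply, smul_eq_mul]
    ring
  rw [e]
  rcases ha.eq_or_lt with h0 | h0
  · rw [← h0] at hab ⊢
    have : b = 1 := by linarith
    rw [this]
    linarith
  · have := mul_pos h0 hu
    have := mul_nonneg hb hv.le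
    linarith

theorem convex_tset (Ω : TwoForm) (δ t : ℝ) : Convex ℝ (tset Ω δ t) := by
  intro u hu v hv a b ha hb hab
  refine ⟨fun h => ?_, fun h s c y hp hs => ?_, fun h => ?_⟩
  · rw [hu.1 h, hv.1 h, ← add_smul, hab, one_smul]
  · exact pos_comb (hu.2.1 h s c y hp hs) (hv.2.1 h s c y hp hs) ha hb hab
  · exact pos_comb (hu.2.2 h) (hv.2.2 h) ha hb hab

theorem exists_curve {Ω : TwoForm} (h : RotP Ω) :
    ∃ U : ℝ → Fin 3 → ℝ, ContDiff ℝ ∞ U ∧ Adm Ω U := by
  have h0 : ∀ (s c : ℝ) (y : Fin 2 → ℂ), Par s c y → s ^ 2 = 0 →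
      0 < ∑ i, E0 i * pp Ω s c y i := by
    intro s c y hp hs
    have hs' : s = 0 := pow_eq_zero_iff (by norm_num) |>.1 hs
    rw [sum_E0]
    subst hs'
    exact h.line c y hp
  obtain ⟨ε, hε, hball⟩ := Metric.eventually_nhds_iff.1 (tube Ω E0 0 h0)
  set η : ℝ := min ε 1 with hη
  have hη0 : 0 < η := lt_min hε zero_lt_one
  have hη1 : η ≤ 1 := min_le_right _ _
  have hηε : η ≤ ε := min_le_left _ _
  set δ : ℝ := η / 2 with hδ
  have hδ0 : 0 < δ := by positivity
  have hloc : ∀ t₀ : ℝ, ∃ u : Fin 3 → ℝ, ∀ᶠ t in 𝓝 t₀, u ∈ tset Ω δ t := by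
    intro t₀
    rcases lt_or_ge t₀ η with hc | hc
    · refine ⟨E0, ?_⟩
      filter_upwards [Iio_mem_nhds hc] with t ht
      have ht' : t < η := ht
      refine ⟨fun _ => rfl, fun _ s c y hp hs => ?_, fun h1 => ?_⟩
      · refine hball ?_ s c y hp hs
        rw [Real.dist_eq, sub_zero, abs_of_nonneg (by rw [← hs]; positivity)]
        linarith
      · linarith
    have hc' : δ < t₀ := by linarith
    rcases lt_trichotomy t₀ 1 with h1 | h1 | h1
    · obtain ⟨u, hu⟩ := h.spheres t₀ (by linarith) h1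
      refine ⟨u, ?_⟩
      filter_upwards [tube Ω u t₀ hu, Ioi_mem_nhds hc', Iio_mem_nhds h1] with t ht1 ht2 ht3
      have ht2' : δ < t := ht2
      have ht3' : t < 1 := ht3
      exact ⟨fun h4 => by linarith, fun _ => ht1, fun h4 => by linarith⟩
    · have hu : ∀ (s c : ℝ) (y : Fin 2 → ℂ), Par s c y → s ^ 2 = t₀ →
          0 < ∑ i, SS Ω i * pp Ω s c y i := by
        intro s c y hp hs
        rw [h1] at hs
        obtain ⟨e1, e2⟩ := par_one hp hs
        subst e1 e2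
        exact (top_pos h.symplectic hp).1
      refine ⟨SS Ω, ?_⟩
      filter_upwards [tube Ω (SS Ω) t₀ hu, Ioi_mem_nhds hc'] with t ht1 ht2
      have ht2' : δ < t := ht2
      refine ⟨fun h4 => by linarith, fun _ => ht1, fun _ => ?_⟩
      exact (top_pos h.symplectic (par_top (y := ![1, 0]) (by simp))).2
    · refine ⟨0, ?_⟩
      filter_upwards [Ioi_mem_nhds h1, Ioi_mem_nhds hc'] with t ht1 ht2
      have ht1' : 1 < t := ht1
      have ht2' : δ < t := ht2
      exact ⟨fun h4 => by linarith, fun h4 => by linarith, fun h4 => by linarith⟩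
  obtain ⟨g, hg⟩ := exists_contMDiffMap_forall_mem_convex_of_local_const (n := (⊤ : ℕ∞))
    (𝓘(ℝ, ℝ)) (convex_tset Ω δ) hloc
  have hgs : ContDiff ℝ ∞ g := g.contMDiff.contDiff
  set U : ℝ → Fin 3 → ℝ := fun t i => (g t i - E0 i) / t with hU
  have hY : ∀ t i, YY U t i = g t i := by
    intro t i
    have e : YY U t i = E0 i + t * ((g t i - E0 i) / t) := rfl
    rw [e]
    rcases eq_or_ne t 0 with ht | ht
    · rw [ht, (hg 0).1 hδ0]
      simp
    · field_simp
      ring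
  have hUs : ContDiff ℝ ∞ U := by
    rw [contDiff_pi]
    intro i
    rw [contDiff_iff_contDiffAt]
    intro t
    rcases lt_or_ge t δ with ht | ht
    · have h1 : (fun t => U t i) =ᶠ[𝓝 t] fun _ => 0 := by
        filter_upwards [Iio_mem_nhds ht] with x hx
        show (g x i - E0 i) / x = 0
        rw [(hg x).1 hx]
        simp
      exact contDiffAt_const.congr_of_eventuallyEq h1
    · have ht0 : t ≠ 0 := by linarith
      exact ((contDiff_pi.1 hgs i).contDiffAt.sub contDiffAt_const).div contDiffAt_id ht0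
  refine ⟨U, hUs, ?_, ?_⟩
  · intro s c y hp
    simp only [hY]
    refine (hg (s ^ 2)).2.1 ?_ s c y hp rfl
    have := hp.sc
    nlinarith [sq_nonneg c]
  · simp only [hY]
    exact (hg 1).2.2 rfl

/-- `((1 - t/2)^n - 1) / t` -/
def mun (n : ℕ) (t : ℝ) : ℝ := -(1 / 2) * ∑ j ∈ Finset.range n, (1 - t / 2) ^ j

theorem contDiff_mun (n : ℕ) : ContDiff ℝ ∞ (mun n) := by
  unfold mun
  fun_prop

theorem mul_mun (n : ℕ) (t : ℝ) : 1 + t * mun n t = (1 - t / 2) ^ n := by
  induction n with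
  | zero =>
    unfold mun
    simp
  | succ m ih =>
    have e : mun (m + 1) t = mun m t - (1 / 2) * (1 - t / 2) ^ m := by
      unfold mun
      rw [Finset.sum_range_succ]
      ring
    rw [e, pow_succ, ← ih]
    ring

theorem dm_mun (n : ℕ) (t : ℝ) : dm (mun n) t * (2 - t) = -(n * (1 - t / 2) ^ n) := by
  have h2 : HasDerivAt (mun n) (deriv (mun n) t) t :=
    ((contDiff_mun n).differentiable (by simp) t).hasDerivAt
  have h5 : HasDerivAt (fun t : ℝ => 1 + t * mun n t) (dm (mun n) t) t := by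
    refine (((hasDerivAt_id t).mul h2).const_add 1).congr_deriv ?_
    unfold dm
    simp
  have h6 : HasDerivAt (fun t : ℝ => (1 - t / 2) ^ n) (n * (1 - t / 2) ^ (n - 1) * (-(1 / 2))) t := by
    have h7 : HasDerivAt (fun t : ℝ => 1 - t / 2) (-(1 / 2)) t := by
      have := ((hasDerivAt_id t).div_const 2).const_sub 1
      simpa using this
    exact h7.pow n
  have h7 : (fun t : ℝ => 1 + t * mun n t) = fun t : ℝ => (1 - t / 2) ^ n := by
    funext t
    exact mul_mun n t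
  rw [h7] at h5
  rw [h5.unique h6]
  rcases n with _ | m
  · simp
  · rw [Nat.add_sub_cancel, pow_succ]
    push_cast
    ring

/-- a compactness argument -/
theorem exists_nat {X : Type} [TopologicalSpace X] [CompactSpace X] {A B : X → ℝ}
    (hA : Continuous A) (hB : Continuous B) (h0 : ∀ x, 0 ≤ B x) (h1 : ∀ x, B x = 0 → 0 < A x) :
    ∃ N : ℕ, ∀ n : ℕ, N ≤ n → ∀ x, 0 < A x + n * B x := by
  have hmono : ∀ (m n : ℕ) (x : X), m ≤ n → 0 < A x + m * B x → 0 < A x + n * B x := by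
    intro m n x hmn hx
    have h2 : (m : ℝ) ≤ n := by exact_mod_cast hmn
    have h3 := mul_le_mul_of_nonneg_right h2 (h0 x)
    linarith
  obtain ⟨N, hN⟩ := isCompact_univ.elim_directed_cover (fun n : ℕ => {x | 0 < A x + n * B x})
    (fun n => isOpen_lt continuous_const (hA.add (continuous_const.mul hB))) (by
      intro x _
      rw [mem_iUnion]
      rcases (h0 x).eq_or_lt with h2 | h2
      · refine ⟨0, ?_⟩
        show 0 < A x + (0 : ℕ) * B x
        rw [← h2]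
        simpa using h1 x h2.symm
      · obtain ⟨n, hn⟩ := exists_nat_gt (-A x / B x)
        refine ⟨n, ?_⟩
        show 0 < A x + n * B x
        rw [div_lt_iff₀ h2] at hn
        linarith) (by
      intro m n
      refine ⟨max m n, ?_, ?_⟩
      · intro x hx
        exact hmono _ _ x (le_max_left _ _) hx
      · intro x hx
        exact hmono _ _ x (le_max_right _ _) hx)
  exact ⟨N, fun n hn x => hmono N n x hn (hN (mem_univ x))⟩

theorem Adm.sq_pos {Ω : TwoForm} {U : ℝ → Fin 3 → ℝ} (h : Adm Ω U) {t : ℝ} (h0 : 0 ≤ t)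
    (h1 : t ≤ 1) : 0 < ∑ i, YY U t i ^ 2 := by
  obtain ⟨s, c, y, hp, hs⟩ := par_exists h0 h1
  have h2 := h.pos s c y hp
  rw [hs] at h2
  by_contra hcon
  have h3 : ∑ i, YY U t i ^ 2 = 0 := le_antisymm (not_lt.1 hcon)
    (Finset.sum_nonneg fun i _ => sq_nonneg _)
  rw [Finset.sum_eq_zero_iff_of_nonneg fun i _ => sq_nonneg _] at h3
  have h4 : ∀ i, YY U t i = 0 := fun i => pow_eq_zero_iff (by norm_num) |>.1 (h3 i (Finset.mem_univ i))
  simp [h4] at h2

theorem continuous_YY {U : ℝ → Fin 3 → ℝ} (hU : ContDiff ℝ ∞ U) (i : Fin 3) :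
    Continuous fun t => YY U t i := by
  unfold YY
  exact continuous_const.add (continuous_id.mul (contDiff_pi.1 hU i).continuous)

theorem continuous_DY {U : ℝ → Fin 3 → ℝ} (hU : ContDiff ℝ ∞ U) (i : Fin 3) :
    Continuous fun t => DY U t i := by
  unfold DY
  have h1 : ContDiff ℝ ∞ (deriv U) := by
    have := (contDiff_infty_iff_deriv.1 hU).2
    exact this
  exact (contDiff_pi.1 hU i).continuous.add (continuous_id.mul (contDiff_pi.1 h1 i).continuous)

theorem continuous_DD {U : ℝ → Fin 3 → ℝ} (hU : ContDiff ℝ ∞ U) : Continuous (DD U) := by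
  unfold DD
  refine continuous_finsetSum _ fun i _ => ?_
  exact (continuous_YY hU i).mul ((continuous_YY hU i).sub
    ((continuous_const.sub continuous_id).mul (continuous_DY hU i)))

theorem DD_one (U : ℝ → Fin 3 → ℝ) : DD U 1 = ∑ i, YY U 1 i ^ 2 := by
  unfold DD
  simp only [sub_self, zero_mul, sub_zero, sq]

/-- the function -/
theorem exists_fun {Ω : TwoForm} {U : ℝ → Fin 3 → ℝ} (hU : ContDiff ℝ ∞ U) (h : Adm Ω U) :
    ∃ (μ : ℝ → ℝ) (hμ : ContDiff ℝ ∞ μ), (∀ t : ℝ, 0 ≤ t → t ≤ 1 → 0 < 1 + t * μ t) ∧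
      (∀ t : ℝ, 0 ≤ t → t ≤ 1 → 0 < DD (mulG μ U) t) ∧
      ∀ (s c : ℝ) (y : Fin 2 → ℂ), Par s c y → 0 < wd (Ω.1 (zz s c y))
        ((KG _ (contDiff_mulG hμ hU)).1 (zz s c y)) (qq y) (rr s c y) := by
  -- the first condition
  obtain ⟨N₁, hN₁⟩ := exists_nat (X := Icc (0 : ℝ) 1) (A := fun t => DD U t)
    (B := fun t => (1 - (t : ℝ)) * (∑ i, YY U t i ^ 2) / 2)
    ((continuous_DD hU).comp continuous_subtype_val) (by
      have h1 : Continuous fun t : ℝ => (1 - t) * (∑ i, YY U t i ^ 2) / 2 := by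
        refine Continuous.div_const (Continuous.mul (by fun_prop) ?_) _
        exact continuous_finsetSum _ fun i _ => (continuous_YY hU i).pow 2
      exact h1.comp continuous_subtype_val) (by
      intro t
      have h1 := (h.sq_pos t.2.1 t.2.2).le
      have h2 : 0 ≤ 1 - (t : ℝ) := by linarith [t.2.2]
      positivity) (by
      intro t ht
      have h1 := h.sq_pos t.2.1 t.2.2
      have h2 : (t : ℝ) = 1 := by
        have h3 : (1 - (t : ℝ)) * (∑ i, YY U t i ^ 2) = 0 := by linarith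
        rcases mul_eq_zero.1 h3 with h4 | h4
        · linarith
        · exact absurd h4 h1.ne'
      show 0 < DD U t
      rw [h2, DD_one, ← h2]
      exact h1)
  -- the second condition
  obtain ⟨N₂, hN₂⟩ := exists_nat (X := PS)
    (A := fun x => wd (Ω.1 (zp x)) ((KG U hU).1 (zp x)) (qq x.1.2.2) (rr x.1.1 x.1.2.1 x.1.2.2))
    (B := fun x => (1 - x.1.1 ^ 2) * (∑ i, pp Ω x.1.1 x.1.2.1 x.1.2.2 i * YY U (x.1.1 ^ 2) i) / 2)
    (continuous_wds.comp (continuous_const.prodMk (continuous_const.prodMk continuous_id))) (by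
      refine Continuous.div_const (Continuous.mul (by fun_prop) ?_) _
      refine continuous_finsetSum _ fun i _ => ?_
      refine ((continuous_pp i).comp (continuous_const.prodMk continuous_id)).mul ?_
      exact (continuous_YY hU i).comp (by fun_prop)) (by
      intro x
      have h1 := h.pos _ _ _ x.2
      have h2 : 0 ≤ 1 - x.1.1 ^ 2 := by
        have h3 : Par x.1.1 x.1.2.1 x.1.2.2 := x.2
        have := h3.sc
        nlinarith [sq_nonneg x.1.2.1]
      simp only [mul_comm (pp Ω _ _ _ _)]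
      positivity) (by
      rintro ⟨⟨s, c, y⟩, hp⟩ hx
      have hp' : Par s c y := hp
      have h1 := h.pos _ _ _ hp'
      have h2 : s ^ 2 = 1 := by
        have h3 : (1 - s ^ 2) * (∑ i, pp Ω s c y i * YY U (s ^ 2) i) = 0 := by
          have := hx
          simp only at this
          linarith
        simp only [mul_comm (pp Ω _ _ _ _)] at h3
        rcases mul_eq_zero.1 h3 with h4 | h4
        · linarith
        · exact absurd h4 h1.ne'
      obtain ⟨e1, e2⟩ := par_one hp' h2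
      subst e1 e2
      show 0 < wd (Ω.1 (zz 1 0 y)) ((KG U hU).1 (zz 1 0 y)) (qq y) (rr 1 0 y)
      rw [wd_top Ω hU hp']
      exact h.top)
  set n := max N₁ N₂ with hn
  have hm : ∀ t : ℝ, t ≤ 1 → 0 < 1 + t * mun n t := by
    intro t ht
    rw [mul_mun]
    have : 0 < 1 - t / 2 := by linarith
    positivity
  have hd : ∀ t : ℝ, 0 ≤ t → t ≤ 1 → -dm (mun n) t ≥ (1 + t * mun n t) * (n / 2) := by
    intro t h0 h1
    have h2 := dm_mun n t
    have h3 := hm t h1
    rw [← mul_mun] at h2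
    have h4 : 0 ≤ (n : ℝ) * (1 + t * mun n t) := by positivity
    nlinarith
  refine ⟨mun n, contDiff_mun n, fun t _ h1 => hm t h1, ?_, ?_⟩
  · intro t h0 h1
    rw [DD_mulG (contDiff_mun n) hU]
    have h2 := hN₁ n (le_max_left _ _) ⟨t, h0, h1⟩
    simp only at h2
    have h3 := hd t h0 h1
    have h4 := hm t h1
    have h5 := (h.sq_pos h0 h1).le
    have h6 : 0 ≤ (1 - t) * ∑ i, YY U t i ^ 2 := mul_nonneg (by linarith) h5
    apply mul_pos h4
    have h7 := mul_le_mul_of_nonneg_right h3.le h6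
    have h8 := mul_pos h4 h2
    nlinarith
  · intro s c y hp
    rw [wd_mulG Ω (contDiff_mun n) hU hp]
    have h0 : 0 ≤ s ^ 2 := sq_nonneg _
    have h1 : s ^ 2 ≤ 1 := by
      have := hp.sc
      nlinarith [sq_nonneg c]
    have h2 := hN₂ n (le_max_right _ _) ⟨(s, c, y), hp⟩
    simp only at h2
    have h2' : 0 < wd (Ω.1 (zz s c y)) ((KG U hU).1 (zz s c y)) (qq y) (rr s c y) +
      n * ((1 - s ^ 2) * (∑ i, pp Ω s c y i * YY U (s ^ 2) i) / 2) := h2
    have h3 := hd _ h0 h1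
    have h4 := hm _ h1
    have h5 : 0 ≤ ∑ i, pp Ω s c y i * YY U (s ^ 2) i := by
      have := (h.pos _ _ _ hp).le
      simp only [mul_comm (pp Ω _ _ _ _)]
      exact this
    have h6 : 0 ≤ (1 - s ^ 2) * ∑ i, pp Ω s c y i * YY U (s ^ 2) i :=
      mul_nonneg (by linarith) h5
    have h7 := mul_le_mul_of_nonneg_right h3.le h6
    have h8 := mul_pos h4 h2'
    nlinarith

end Pool.Agent.H820.RT
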