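import Pool.Agent.H820.RT.Std

/-!
The compact space of the parameters, and the self-dual part at the point.
-/

set_option autoImplicit false

open Set Topology Filter
open scoped ContDiff

noncomputable section

namespace Pool.Agent.H820.RT

open Pool.Agent.H820.PC

/-- the parameters -/
def PS : Set (ℝ × ℝ × (Fin 2 → ℂ)) := {x | Par x.1 x.2.1 x.2.2}

theorem isCompact_PS : IsCompact PS := by
  have h1 : IsCompact ((Icc (0 : ℝ) 1) ×ˢ ((Icc (0 : ℝ) 1) ×ˢ
      (Metric.closedBall (0 : Fin 2 → ℂ) 1))) :=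
    isCompact_Icc.prod (isCompact_Icc.prod (isCompact_closedBall _ _))
  refine h1.of_isClosed_subset ?_ ?_
  · have e : PS = {x : ℝ × ℝ × (Fin 2 → ℂ) | 0 ≤ x.1} ∩ ({x | 0 ≤ x.2.1} ∩
        ({x | x.1 ^ 2 + x.2.1 ^ 2 = 1} ∩ {x | ‖x.2.2 0‖ ^ 2 + ‖x.2.2 1‖ ^ 2 = 1})) := by
      ext x
      exact ⟨fun h => ⟨h.s0, h.c0, h.sc, h.ny⟩, fun h => ⟨h.1, h.2.1, h.2.2.1, h.2.2.2⟩⟩
    rw [e]
    refine (isClosed_le (by fun_prop) (by fun_prop)).inter
      ((isClosed_le (by fun_prop) (by fun_prop)).inter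
      ((isClosed_eq (by fun_prop) (by fun_prop)).inter
      (isClosed_eq (by fun_prop) (by fun_prop))))
  · rintro ⟨s, c, y⟩ h
    have h0 : Par s c y := h
    have h1 := h0.s0
    have h2 := h0.c0
    have h3 := h0.sc
    have h4 := h0.ny
    refine ⟨⟨h1, ?_⟩, ⟨h2, ?_⟩, ?_⟩
    · show s ≤ 1
      nlinarith
    · show c ≤ 1
      nlinarith
    · rw [mem_closedBall_zero_iff, pi_norm_le_iff_of_nonneg zero_le_one]
      intro i
      have h5 := sq_nonneg ‖y 0‖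
      have h6 := sq_nonneg ‖y 1‖
      have h7 := norm_nonneg (y 0)
      have h8 := norm_nonneg (y 1)
      fin_cases i
      · show ‖y 0‖ ≤ 1
        nlinarith
      · show ‖y 1‖ ≤ 1
        nlinarith

instance instCptPS : CompactSpace PS := isCompact_iff_compactSpace.1 isCompact_PS

/-- the point of a parameter -/
def zp (x : PS) : Dom := ⟨zz x.1.1 x.1.2.1 x.1.2.2, (isFrame_std x.2).z0⟩

theorem continuous_mk {X : Type} [TopologicalSpace X] {a b c : X → ℂ} (ha : Continuous a)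
    (hb : Continuous b) (hc : Continuous c) : Continuous fun x => mk (a x) (b x) (c x) := by
  unfold mk
  apply (PiLp.continuous_toLp 2 _).comp
  rw [continuous_pi_iff]
  intro i
  fin_cases i
  · exact ha
  · exact hb
  · exact hc

theorem continuous_zp : Continuous zp := by
  refine Continuous.subtype_mk ?_ _
  exact continuous_mk (by fun_prop) (by fun_prop) (by fun_prop)

theorem continuous_qp : Continuous fun x : PS => qq x.1.2.2 :=
  continuous_mk (by fun_prop) (by fun_prop) (by fun_prop)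

theorem continuous_rp : Continuous fun x : PS => rr x.1.1 x.1.2.1 x.1.2.2 :=
  continuous_mk (by fun_prop) (by fun_prop) (by fun_prop)

theorem continuous_pp (i : Fin 3) : Continuous fun x : TwoForm × PS =>
    pp x.1 x.2.1.1 x.2.1.2.1 x.2.1.2.2 i := by
  have hb : Continuous fun x : TwoForm × PS => zp x.2 := continuous_zp.comp continuous_snd
  have hq : Continuous fun x : TwoForm × PS => qq x.2.1.2.2 := continuous_qp.comp continuous_snd
  have hr : Continuous fun x : TwoForm × PS => rr x.2.1.1 x.2.1.2.1 x.2.1.2.2 :=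
    continuous_rp.comp continuous_snd
  have hJq := continuous_J.comp hq
  have hJr := continuous_J.comp hr
  have k1 := fun {g h : TwoForm × PS → C3} (hg : Continuous g) (hh : Continuous h) =>
    continuous_value2 (A := fun x : TwoForm × PS => x.1) continuous_fst hb hg hh
  have hs : Continuous fun x : TwoForm × PS => x.2.1.1 := by fun_prop
  fin_cases i
  · exact k1 hq hJq
  · exact hs.mul (k1 hJq hJr)
  · exact hs.mul (k1 hJr hq)

theorem continuous_wds : Continuous fun x : TwoForm × TwoForm × PS =>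
    wd (x.1.1 (zp x.2.2)) (x.2.1.1 (zp x.2.2)) (qq x.2.2.1.2.2)
      (rr x.2.2.1.1 x.2.2.1.2.1 x.2.2.1.2.2) := by
  have hb : Continuous fun x : TwoForm × TwoForm × PS => zp x.2.2 :=
    continuous_zp.comp (by fun_prop)
  have he : Continuous fun x : TwoForm × TwoForm × PS => qq x.2.2.1.2.2 :=
    continuous_qp.comp (by fun_prop)
  have hn : Continuous fun x : TwoForm × TwoForm × PS => rr x.2.2.1.1 x.2.2.1.2.1 x.2.2.1.2.2 :=
    continuous_rp.comp (by fun_prop)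
  have hJe := continuous_J.comp he
  have hJn := continuous_J.comp hn
  have k1 := fun {g h : TwoForm × TwoForm × PS → C3} (hg : Continuous g) (hh : Continuous h) =>
    continuous_value2 (A := fun x : TwoForm × TwoForm × PS => x.1) continuous_fst hb hg hh
  have k2 := fun {g h : TwoForm × TwoForm × PS → C3} (hg : Continuous g) (hh : Continuous h) =>
    continuous_value2 (A := fun x : TwoForm × TwoForm × PS => x.2.1) (by fun_prop) hb hg hh
  unfold wd
  exact ((((((k1 he hJe).mul (k2 hn hJn)).add ((k2 he hJe).mul (k1 hn hJn))).sub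
    ((k1 he hn).mul (k2 hJe hJn))).sub ((k2 he hn).mul (k1 hJe hJn))).add
    ((k1 he hJn).mul (k2 hJe hn))).add ((k2 he hJn).mul (k1 hJe hn))

/-- the basis vectors -/
def e0 : C3 := mk 1 0 0
def e1 : C3 := mk 0 1 0
def e2 : C3 := mk 0 0 1

theorem e0_ne : e0 ≠ 0 := by
  intro h
  have : e0 0 = 0 := by
    rw [h]
    rfl
  exact one_ne_zero this

/-- the self-dual part at the centre -/
def SS (Ω : TwoForm) (i : Fin 3) : ℝ :=
  ![Ω.1 e0 ![e1, J e1] + Ω.1 e0 ![e2, J e2], Ω.1 e0 ![e1, e2] - Ω.1 e0 ![J e1, J e2],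
    Ω.1 e0 ![e1, J e2] + Ω.1 e0 ![J e1, e2]] i

theorem continuous_SS (i : Fin 3) : Continuous fun Ω : TwoForm => SS Ω i := by
  have k1 := fun (v w : C3) => continuous_value2 (A := fun x : TwoForm => x) continuous_id
    (f := fun _ => ⟨e0, e0_ne⟩) (g := fun _ => v) (h := fun _ => w) continuous_const
    continuous_const continuous_const
  fin_cases i
  · exact (k1 e1 (J e1)).add (k1 e2 (J e2))
  · exact (k1 e1 e2).sub (k1 (J e1) (J e2))
  · exact (k1 e1 (J e2)).add (k1 (J e1) e2)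

/-- the other three values -/
def qv (Ω : TwoForm) (s c : ℝ) (y : Fin 2 → ℂ) (i : Fin 3) : ℝ :=
  ![Ω.1 (zz s c y) ![rr s c y, J (rr s c y)], Ω.1 (zz s c y) ![rr s c y, qq y],
    Ω.1 (zz s c y) ![rr s c y, J (qq y)]] i

theorem sd_aux (A : C3 [⋀^Fin 2]→L[ℝ] ℝ) (e n : C3) (a b : ℂ) (q r : C3)
    (hq : q = (-(starRingEnd ℂ) b) • e + ((starRingEnd ℂ) a) • n) (hr : r = a • e + b • n) :
    A ![q, J q] + A ![r, J r] = (Complex.normSq a + Complex.normSq b) *
      (A ![e, J e] + A ![n, J n]) ∧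
    A ![J q, J r] + A ![r, q] = (Complex.normSq a + Complex.normSq b) *
      (A ![e, n] - A ![J e, J n]) ∧
    A ![J r, q] + A ![r, J q] = (Complex.normSq a + Complex.normSq b) *
      (A ![e, J n] + A ![J e, n]) := by
  rw [hq, hr, csmul (-(starRingEnd ℂ) b) e, csmul ((starRingEnd ℂ) a) n, csmul a e, csmul b n]
  simp only [J_add, J_smul, J_J, bil_add_left, bil_add_right, bil_smul_left, bil_smul_right,
    bil_neg_left, bil_neg_right, smul_neg, bil_self, Complex.neg_re, Complex.neg_im,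
    Complex.conj_re, Complex.conj_im]
  rw [bil_swap A (J e) e, bil_swap A (J n) n, bil_swap A n e, bil_swap A (J n) e,
    bil_swap A n (J e), bil_swap A (J n) (J e)]
  rw [Complex.normSq_apply, Complex.normSq_apply]
  refine ⟨?_, ?_, ?_⟩ <;> ring

theorem pp_add_qv (Ω : TwoForm) {y : Fin 2 → ℂ} (h : Par 1 0 y) (i : Fin 3) :
    pp Ω 1 0 y i + qv Ω 1 0 y i = SS Ω i := by
  have hz : zz 1 0 y = e0 := by
    apply mk_ext
    · show ((1 : ℝ) : ℂ) = 1
      simp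
    · show ((0 : ℝ) : ℂ) * y 0 = 0
      simp
    · show ((0 : ℝ) : ℂ) * y 1 = 0
      simp
  have hq : qq y = (-(starRingEnd ℂ) (y 1)) • e1 + ((starRingEnd ℂ) (y 0)) • e2 := by
    apply mk_ext
    · show (0 : ℂ) = (-(starRingEnd ℂ) (y 1)) * 0 + ((starRingEnd ℂ) (y 0)) * 0
      simp
    · show -(starRingEnd ℂ) (y 1) = (-(starRingEnd ℂ) (y 1)) * 1 + ((starRingEnd ℂ) (y 0)) * 0
      simp
    · show (starRingEnd ℂ) (y 0) = (-(starRingEnd ℂ) (y 1)) * 0 + ((starRingEnd ℂ) (y 0)) * 1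
      simp
  have hr : rr 1 0 y = (y 0) • e1 + (y 1) • e2 := by
    apply mk_ext
    · show -((0 : ℝ) : ℂ) = y 0 * 0 + y 1 * 0
      simp
    · show ((1 : ℝ) : ℂ) * y 0 = y 0 * 1 + y 1 * 0
      simp
    · show ((1 : ℝ) : ℂ) * y 1 = y 0 * 0 + y 1 * 1
      simp
  obtain ⟨k1, k2, k3⟩ := sd_aux (Ω.1 e0) e1 e2 (y 0) (y 1) (qq y) (rr 1 0 y) hq hr
  have hn : Complex.normSq (y 0) + Complex.normSq (y 1) = 1 := by
    rw [Complex.normSq_eq_norm_sq, Complex.normSq_eq_norm_sq]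
    exact h.ny
  rw [hn, one_mul] at k1 k2 k3
  fin_cases i
  · show Ω.1 (zz 1 0 y) ![qq y, J (qq y)] + Ω.1 (zz 1 0 y) ![rr 1 0 y, J (rr 1 0 y)] = _
    rw [hz]
    exact k1
  · show 1 * Ω.1 (zz 1 0 y) ![J (qq y), J (rr 1 0 y)] + Ω.1 (zz 1 0 y) ![rr 1 0 y, qq y] = _
    rw [hz, one_mul]
    exact k2
  · show 1 * Ω.1 (zz 1 0 y) ![J (rr 1 0 y), qq y] + Ω.1 (zz 1 0 y) ![rr 1 0 y, J (qq y)] = _
    rw [hz, one_mul]
    exact k3

theorem pfA_top (Ω : TwoForm) {y : Fin 2 → ℂ} :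
    pfA (Ω.1 (zz 1 0 y)) (qq y) (rr 1 0 y) = ∑ i, pp Ω 1 0 y i * qv Ω 1 0 y i := by
  rw [Fin.sum_univ_three]
  show _ = Ω.1 (zz 1 0 y) ![qq y, J (qq y)] * Ω.1 (zz 1 0 y) ![rr 1 0 y, J (rr 1 0 y)] +
    1 * Ω.1 (zz 1 0 y) ![J (qq y), J (rr 1 0 y)] * Ω.1 (zz 1 0 y) ![rr 1 0 y, qq y] +
    1 * Ω.1 (zz 1 0 y) ![J (rr 1 0 y), qq y] * Ω.1 (zz 1 0 y) ![rr 1 0 y, J (qq y)]
  unfold pfA
  rw [bil_swap _ (rr 1 0 y) (qq y), bil_swap _ (J (rr 1 0 y)) (qq y),
    bil_swap _ (rr 1 0 y) (J (qq y))]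
  ring

/-- `Ω ∧ K` at the centre -/
theorem wd_top (Ω : TwoForm) {G : ℝ → Fin 3 → ℝ} (hG : ContDiff ℝ ∞ G) {y : Fin 2 → ℂ}
    (h : Par 1 0 y) : wd (Ω.1 (zz 1 0 y)) ((KG G hG).1 (zz 1 0 y)) (qq y) (rr 1 0 y) =
      ∑ i, YY G 1 i * SS Ω i := by
  rw [wd_KG Ω hG h]
  simp only [← pp_add_qv Ω h, Fin.sum_univ_three, one_pow, sub_self, zero_mul, sub_zero, one_mul]
  have e1 : YY G 1 1 = G 1 1 := by
    unfold YY
    simp
  have e2 : YY G 1 2 = G 1 2 := by
    unfold YY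
    simp
  have f0 : qv Ω 1 0 y 0 = Ω.1 (zz 1 0 y) ![rr 1 0 y, J (rr 1 0 y)] := rfl
  have f1 : qv Ω 1 0 y 1 = Ω.1 (zz 1 0 y) ![rr 1 0 y, qq y] := rfl
  have f2 : qv Ω 1 0 y 2 = Ω.1 (zz 1 0 y) ![rr 1 0 y, J (qq y)] := rfl
  rw [f0, f1, f2, e1, e2, bil_swap _ (rr 1 0 y) (qq y), bil_swap _ (rr 1 0 y) (J (qq y))]
  ring

end Pool.Agent.H820.RT
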