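import Pool.Agent.H820.RT.One

/-!
The two-forms in the class of the Fubini-Study form which are invariant under `SU(2)`.
-/

set_option autoImplicit false

open Set Topology Filter
open scoped ContDiff

noncomputable section

namespace Pool.Agent.H820.RT

open Pool.Agent.H820.PC

/-- the coefficient of `tau` -/
def b0 (G : ℝ → Fin 3 → ℝ) (z : C3) : ℝ := (2 : ℝ)⁻¹ * (G (T z) 0 * T z) * ((‖z‖ ^ 2) ^ 1)⁻¹

/-- the coefficient of `sig` -/
def b1 (G : ℝ → Fin 3 → ℝ) (z : C3) : ℝ := -(2 : ℝ)⁻¹ * G (T z) 0 * ((‖z‖ ^ 2) ^ 1)⁻¹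

/-- the coefficient of `th 1` -/
def b2 (G : ℝ → Fin 3 → ℝ) (z : C3) : ℝ := (2 : ℝ)⁻¹ * G (T z) 1 * ((‖z‖ ^ 2) ^ 2)⁻¹

/-- the coefficient of `th (-i)` -/
def b3 (G : ℝ → Fin 3 → ℝ) (z : C3) : ℝ := (2 : ℝ)⁻¹ * G (T z) 2 * ((‖z‖ ^ 2) ^ 2)⁻¹

/-- the one-form -/
def Lam (G : ℝ → Fin 3 → ℝ) : Form 1 :=
  cov fun z => b0 G z • tau z + b1 G z • sig F0 z + b2 G z • th 1 z + b3 G z • th (-Complex.I) z

theorem contDiffOn_T : ContDiffOn ℝ ∞ T Dom := contDiffOn_al hom_F0.smooth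

theorem contDiffOn_G {G : ℝ → Fin 3 → ℝ} (hG : ContDiff ℝ ∞ G) (i : Fin 3) :
    ContDiffOn ℝ ∞ (fun z => G (T z) i) Dom :=
  ((contDiff_pi.1 hG i).comp_contDiffOn contDiffOn_T)

theorem T_scale {c : ℂ} (hc : c ≠ 0) (z : C3) : T (c • z) = T z := hom_F0.al_scale hc z

theorem th_scale (a c : ℂ) (z v : C3) : th a (c • z) (c • v) = (‖c‖ ^ 2) ^ 2 * th a z v := by
  rw [th_apply, th_apply]
  have h : a * QQ (c • z) * LL (c • z) (c • v) = (((‖c‖ ^ 2) ^ 2 : ℝ) : ℂ) *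
      (a * QQ z * LL z v) := by
    have e : (((‖c‖ ^ 2) ^ 2 : ℝ) : ℂ) = (starRingEnd ℂ c * c) ^ 2 := by
      rw [Complex.conj_mul']
      push_cast
      rfl
    rw [e]
    unfold QQ
    rw [LL_apply, LL_apply]
    simp only [PiLp.smul_apply, smul_eq_mul, map_mul]
    ring
  rw [h, Complex.re_ofReal_mul]

theorem Lam_apply (G : ℝ → Fin 3 → ℝ) (z : C3) (v : Fin 1 → C3) :
    Lam G z v = b0 G z * tau z (v 0) + b1 G z * sig F0 z (v 0) + b2 G z * th 1 z (v 0) +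
      b3 G z * th (-Complex.I) z (v 0) := rfl

theorem LL_self (c : ℂ) (z : C3) : LL z (c • z) = 0 := by
  rw [LL_apply]
  simp only [PiLp.smul_apply, smul_eq_mul]
  ring

theorem T_eq (z : C3) : T z = ‖z 0‖ ^ 2 * (‖z‖ ^ 2)⁻¹ := by
  unfold T al F0
  rw [pow_one]

theorem isForm_Lam {G : ℝ → Fin 3 → ℝ} (hG : ContDiff ℝ ∞ G) : IsForm 1 (Lam G) := by
  refine ⟨?_, ?_, ?_, ?_⟩
  · apply contDiffOn_cov
    refine ((ContDiffOn.add ?_ ?_).add ?_).add ?_
    · exact ((contDiffOn_const.mul ((contDiffOn_G hG 0).mul contDiffOn_T)).mul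
        (contDiffOn_q 1)).smul tau.contDiff.contDiffOn
    · exact ((contDiffOn_const.mul (contDiffOn_G hG 0)).mul (contDiffOn_q 1)).smul
        (contDiff_sig hom_F0.smooth).contDiffOn
    · exact ((contDiffOn_const.mul (contDiffOn_G hG 1)).mul (contDiffOn_q 2)).smul
        (contDiff_th 1).contDiffOn
    · exact ((contDiffOn_const.mul (contDiffOn_G hG 2)).mul (contDiffOn_q 2)).smul
        (contDiff_th (-Complex.I)).contDiffOn
  · intro c z v hc hz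
    have hc' : ‖c‖ ≠ 0 := norm_ne_zero_iff.2 hc
    rw [Lam_apply, Lam_apply, tau_scale, sig_scale hom_F0, th_scale, th_scale]
    unfold b0 b1 b2 b3
    rw [T_scale hc, norm_smul]
    have hz' : ‖z‖ ≠ 0 := norm_ne_zero_iff.2 hz
    field_simp
  · intro z v i c hz hv
    have hi : i = 0 := Subsingleton.elim _ _
    rw [hi] at hv
    rw [Lam_apply, hv, tau_vertical, sig_vertical hom_F0, th_apply, th_apply, LL_self]
    unfold b0 b1
    have hz' : ‖z‖ ≠ 0 := norm_ne_zero_iff.2 hz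
    rw [T_eq]
    unfold F0
    simp only [mul_zero, Complex.zero_re, add_zero]
    field_simp
    push_cast
    ring
  · ext v
    rw [Lam_apply]
    have e1 : tau 0 = 0 := map_zero _
    have e2 : sig F0 0 = 0 := by
      unfold sig
      rw [hom_F0.zero, mul_zero, map_zero, ContinuousLinearMap.zero_comp]
    have e3 : ∀ a, th a 0 = 0 := fun a => by
      ext v
      rw [th_apply, map_zero]
      simp
    rw [e1, e2, e3, e3]
    simp

/-- the two-form `ω_FS + d Lam` -/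
def KG (G : ℝ → Fin 3 → ℝ) (hG : ContDiff ℝ ∞ G) : TwoForm :=
  fsForm + mkTwo (dB (Lam G)) (isForm_dB (isForm_Lam hG).isConn)

theorem KG_at {G : ℝ → Fin 3 → ℝ} (hG : ContDiff ℝ ∞ G) {z : C3} (hz : z ≠ 0) (v w : C3) :
    (KG G hG).1 z ![v, w] = fs z v w + extDeriv (Lam G) z ![v, w] := by
  unfold KG
  rw [add_at', fsForm_at hz, mkTwo_val, dB_ne _ hz]

/-- half of the differential of `T` on horizontal vectors -/
def hT (z v : C3) : ℝ := inner ℝ (z 0) (v 0)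

theorem hasDerivAt_G {G : ℝ → Fin 3 → ℝ} (hG : ContDiff ℝ ∞ G) (t : ℝ) (i : Fin 3) :
    HasDerivAt (fun t => G t i) (deriv G t i) t :=
  (hasDerivAt_pi.1 (hG.differentiable (by simp) t).hasDerivAt) i

/-- the exterior derivative of `Lam` at a unit vector, on horizontal vectors -/
theorem dLam {G : ℝ → Fin 3 → ℝ} (hG : ContDiff ℝ ∞ G) {z : C3} (hz1 : ‖z‖ = 1) {v w : C3}
    (hv : inner ℂ z v = 0) (hw : inner ℂ z w = 0) :
    extDeriv (Lam G) z ![v, w] = T z * G (T z) 0 * inner ℝ (J v) w -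
      (G (T z) 0 + T z * deriv G (T z) 0) * inner ℝ (Complex.I * v 0) (w 0) +
      (deriv G (T z) 1 * (hT z v * th 1 z w - hT z w * th 1 z v) +
        (2 : ℝ)⁻¹ * G (T z) 1 * dth 1 z v w) +
      (deriv G (T z) 2 * (hT z v * th (-Complex.I) z w - hT z w * th (-Complex.I) z v) +
        (2 : ℝ)⁻¹ * G (T z) 2 * dth (-Complex.I) z v w) := by
  have hz : z ≠ 0 := by
    intro h0
    rw [h0, norm_zero] at hz1
    exact zero_ne_one hz1
  have hv1 : inner ℝ z v = 0 := by rw [inner_re, hv, Complex.zero_re]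
  have hw1 : inner ℝ z w = 0 := by rw [inner_re, hw, Complex.zero_re]
  have hv2 : tau z v = 0 := by rw [tau_apply, inner_im, hv, Complex.zero_im]
  have hw2 : tau z w = 0 := by rw [tau_apply, inner_im, hw, Complex.zero_im]
  have d0 := hasDerivAt_G hG (T z) 0
  have d1 := hasDerivAt_G hG (T z) 1
  have d2 := hasDerivAt_G hG (T z) 2
  obtain ⟨Q0, hQ0, -⟩ := hasFDerivAt_fal 1 1 hom_F0.smooth hz hz1
    (P := fun x => (2 : ℝ)⁻¹ * (G x 0 * x)) ((d0.mul (hasDerivAt_id _)).const_mul _)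
  obtain ⟨Q1, hQ1, hQ1'⟩ := hasFDerivAt_fal 1 1 hom_F0.smooth hz hz1
    (P := fun x => -(2 : ℝ)⁻¹ * G x 0) (d0.const_mul _)
  obtain ⟨Q2, hQ2, hQ2'⟩ := hasFDerivAt_fal 1 2 hom_F0.smooth hz hz1
    (P := fun x => (2 : ℝ)⁻¹ * G x 1) (d1.const_mul _)
  obtain ⟨Q3, hQ3, hQ3'⟩ := hasFDerivAt_fal 1 2 hom_F0.smooth hz hz1
    (P := fun x => (2 : ℝ)⁻¹ * G x 2) (d2.const_mul _)
  obtain ⟨S1, hS1, hS1'⟩ := hasFDerivAt_sig hom_F0.smooth z
  obtain ⟨S2, hS2, hS2'⟩ := hasFDerivAt_th 1 z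
  obtain ⟨S3, hS3, hS3'⟩ := hasFDerivAt_th (-Complex.I) z
  have e1 : HasFDerivAt (fun z => b0 G z • tau z + b1 G z • sig F0 z + b2 G z • th 1 z +
      b3 G z • th (-Complex.I) z)
      (b0 G z • tau + Q0.smulRight (tau z) + (b1 G z • S1 + Q1.smulRight (sig F0 z)) +
        (b2 G z • S2 + Q2.smulRight (th 1 z)) +
        (b3 G z • S3 + Q3.smulRight (th (-Complex.I) z))) z :=
    (((hQ0.fun_smul tau.hasFDerivAt).add (hQ1.fun_smul hS1)).add (hQ2.fun_smul hS2)).add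
      (hQ3.fun_smul hS3)
  unfold Lam
  rw [extDeriv_cov e1]
  have f1 := hS1' v w
  have f2 := hS2' v w
  have f3 := hS3' v w
  have e5 : T z = ‖z 0‖ ^ 2 := T_unit hz1
  simp only [_root_.add_apply, _root_.smul_apply, ContinuousLinearMap.smulRight_apply,
    smul_eq_mul, hv2, hw2, hQ1' v hv1, hQ1' w hw1, hQ2' v hv1, hQ2' w hw1, hQ3' v hv1,
    hQ3' w hw1, mul_zero, add_zero]
  rw [fderiv_F0, fderiv_F0] at f1
  rw [tau_apply, tau_apply, inner_J_swap v w, sig_apply, sig_apply, fderiv_F0, fderiv_F0]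
  have e6 : inner ℝ (F0 z) (v 0) * inner ℝ (Complex.I * F0 z) (w 0) -
      inner ℝ (F0 z) (w 0) * inner ℝ (Complex.I * F0 z) (v 0) =
      T z * inner ℝ (Complex.I * v 0) (w 0) := by
    rw [e5, ← Complex.normSq_eq_norm_sq, Complex.normSq_apply]
    unfold F0
    simp only [Complex.inner, map_mul, Complex.conj_I, Complex.mul_re, Complex.mul_im,
      Complex.conj_re, Complex.conj_im, Complex.neg_re, Complex.neg_im, Complex.I_re,
      Complex.I_im]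
    ring
  have e7 : b0 G z = (2 : ℝ)⁻¹ * (G (T z) 0 * T z) := by
    unfold b0
    rw [hz1]
    simp
  have e8 : b1 G z = -(2 : ℝ)⁻¹ * G (T z) 0 := by
    unfold b1
    rw [hz1]
    simp
  have e9 : b2 G z = (2 : ℝ)⁻¹ * G (T z) 1 := by
    unfold b2
    rw [hz1]
    simp
  have e10 : b3 G z = (2 : ℝ)⁻¹ * G (T z) 2 := by
    unfold b3
    rw [hz1]
    simp
  rw [e7, e8, e9, e10]
  unfold hT
  have hF : F0 z = z 0 := rfl
  rw [hF] at e6 ⊢
  linear_combination (-(2 : ℝ)⁻¹ * G (T z) 0) * f1 - deriv G (T z) 0 * e6 +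
    ((2 : ℝ)⁻¹ * G (T z) 1) * f2 + ((2 : ℝ)⁻¹ * G (T z) 2) * f3

/-- `1 + τ G`, the curve which describes the form -/
def YY (G : ℝ → Fin 3 → ℝ) (t : ℝ) (i : Fin 3) : ℝ := (if i = 0 then 1 else 0) + t * G t i

/-- its derivative -/
def DY (G : ℝ → Fin 3 → ℝ) (t : ℝ) (i : Fin 3) : ℝ := G t i + t * deriv G t i

/-- the values of the two-form -/
theorem KG_hor {G : ℝ → Fin 3 → ℝ} (hG : ContDiff ℝ ∞ G) {z : C3} (hz1 : ‖z‖ = 1) {v w : C3}
    (hv : inner ℂ z v = 0) (hw : inner ℂ z w = 0) :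
    (KG G hG).1 z ![v, w] = YY G (T z) 0 * inner ℝ (J v) w -
      DY G (T z) 0 * inner ℝ (Complex.I * v 0) (w 0) +
      (deriv G (T z) 1 * (hT z v * th 1 z w - hT z w * th 1 z v) +
        (2 : ℝ)⁻¹ * G (T z) 1 * dth 1 z v w) +
      (deriv G (T z) 2 * (hT z v * th (-Complex.I) z w - hT z w * th (-Complex.I) z v) +
        (2 : ℝ)⁻¹ * G (T z) 2 * dth (-Complex.I) z v w) := by
  have hz : z ≠ 0 := by
    intro h0
    rw [h0, norm_zero] at hz1
    exact zero_ne_one hz1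
  rw [KG_at hG hz, dLam hG hz1 hv hw, fs_horizontal hz1 hv hw]
  unfold YY DY
  rw [if_pos rfl]
  ring

end Pool.Agent.H820.RT
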