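import Pool.Agent.H820.PC.Topo
import Pool.Agent.H820.RT.Defs

/-!
The one-forms which are invariant under `SU(2)`.
-/

set_option autoImplicit false

open Set Topology Filter
open scoped ContDiff

noncomputable section

namespace Pool.Agent.H820.RT

open Pool.Agent.H820.PC

/-- the coordinates as real linear maps -/
def pr (i : Fin 3) : C3 →L[ℝ] ℂ := (EuclideanSpace.proj (𝕜 := ℂ) i).restrictScalars ℝ

theorem pr_apply (i : Fin 3) (z : C3) : pr i z = z i := rfl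

/-- the first coordinate -/
def F0 (z : C3) : ℂ := z 0

theorem fderivC_F0 (z : C3) : fderiv ℂ F0 z = (EuclideanSpace.proj (𝕜 := ℂ) (0 : Fin 3)) :=
  (EuclideanSpace.proj (𝕜 := ℂ) (0 : Fin 3)).hasFDerivAt.fderiv

theorem fderiv_F0 (z v : C3) : fderiv ℝ F0 z v = v 0 := by
  have h : HasFDerivAt F0 (pr 0) z := (pr 0).hasFDerivAt
  rw [h.fderiv]
  rfl

theorem isCurve_F0 : IsCurve 1 F0 := by
  refine ⟨le_rfl, (EuclideanSpace.proj (𝕜 := ℂ) (0 : Fin 3)).contDiff, ?_, ?_⟩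
  · intro c z
    rw [pow_one]
    rfl
  · refine ⟨mk 1 0 0, ?_⟩
    show (1 : ℂ) ≠ 0
    exact one_ne_zero

theorem hom_F0 : Hom 1 F0 := isCurve_F0.hom

/-- `|z₀|² / |z|²` -/
def T (z : C3) : ℝ := al 1 F0 z

theorem T_unit {z : C3} (hz : ‖z‖ = 1) : T z = ‖z 0‖ ^ 2 := by
  unfold T al F0
  rw [hz]
  simp

theorem T_nonneg (z : C3) : 0 ≤ T z := al_nonneg 1 F0 z

theorem norm_sq_eq (z : C3) : ‖z‖ ^ 2 = ‖z 0‖ ^ 2 + ‖z 1‖ ^ 2 + ‖z 2‖ ^ 2 := by
  rw [EuclideanSpace.norm_sq_eq, Fin.sum_univ_three]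

theorem T_le_one {z : C3} (hz : z ≠ 0) : T z ≤ 1 := by
  have h : 0 < ‖z‖ ^ 2 := by
    have := norm_pos_iff.2 hz
    positivity
  unfold T al F0
  rw [pow_one, ← div_eq_mul_inv, div_le_one h, norm_sq_eq]
  have := sq_nonneg ‖z 1‖
  have := sq_nonneg ‖z 2‖
  linarith

/-- the complex bilinear map `z₁ v₂ - z₂ v₁` -/
def LL : C3 →L[ℝ] C3 →L[ℝ] ℂ := (pr 1).smulRight (pr 2) - (pr 2).smulRight (pr 1)

theorem LL_apply (z v : C3) : LL z v = z 1 * v 2 - z 2 * v 1 := rfl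

/-- `conj z₀ ^ 2` -/
def QQ (z : C3) : ℂ := (starRingEnd ℂ) (z 0) ^ 2

/-- the conjugate of the first coordinate -/
def cpr : C3 →L[ℝ] ℂ := Complex.conjCLE.toContinuousLinearMap.comp (pr 0)

theorem cpr_apply (z : C3) : cpr z = (starRingEnd ℂ) (z 0) := rfl

theorem QQ_eq (z : C3) : QQ z = cpr z ^ 2 := rfl

theorem contDiff_QQ : ContDiff ℝ ∞ QQ := cpr.contDiff.pow 2

theorem hasFDerivAt_QQ (z : C3) : HasFDerivAt QQ ((2 * cpr z) • cpr) z := by
  have h := cpr.hasFDerivAt (x := z).pow 2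
  refine h.congr_fderiv ?_
  ext v
  simp

/-- the covector field `Re (c conj z₀ ^ 2 (z₁ dz₂ - z₂ dz₁))` -/
def th (c : ℂ) (z : C3) : C3 →L[ℝ] ℝ := Complex.reCLM.comp ((c * QQ z) • LL z)

theorem th_apply (c : ℂ) (z v : C3) : th c z v = (c * QQ z * LL z v).re := rfl

theorem contDiff_th (c : ℂ) : ContDiff ℝ ∞ (th c) := by
  have h1 : ContDiff ℝ ∞ fun z => (c * QQ z) • LL z :=
    (contDiff_const.mul contDiff_QQ).smul LL.contDiff
  exact (contDiff_const (c := Complex.reCLM)).clm_comp h1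

/-- the exterior derivative of `th` -/
def dth (c : ℂ) (z v w : C3) : ℝ :=
  (c * (2 * cpr z * (cpr v * LL z w - cpr w * LL z v) + 2 * QQ z * LL v w)).re

theorem LL_swap (v w : C3) : LL w v = -LL v w := by
  rw [LL_apply, LL_apply]
  ring

theorem hasFDerivAt_th (c : ℂ) (z : C3) :
    ∃ S : C3 →L[ℝ] C3 →L[ℝ] ℝ, HasFDerivAt (th c) S z ∧
      ∀ v w, S v w - S w v = dth c z v w := by
  have h1 : HasFDerivAt (fun z => c * QQ z) (c • ((2 * cpr z) • cpr)) z :=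
    (hasFDerivAt_QQ z).const_mul c
  have h2 := h1.fun_smul LL.hasFDerivAt (x := z)
  have h3 := (hasFDerivAt_const Complex.reCLM z).clm_comp h2
  refine ⟨_, h3, fun v w => ?_⟩
  have hs := LL_swap v w
  simp only [_root_.add_apply, ContinuousLinearMap.comp_apply,
    ContinuousLinearMap.compL_apply, 
    _root_.smul_apply, ContinuousLinearMap.smulRight_apply,
    smul_eq_mul, Complex.reCLM_apply, hs, _root_.zero_apply, map_zero, add_zero]
  unfold dth
  rw [← Complex.sub_re]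
  congr 1
  ring

end Pool.Agent.H820.RT
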