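import Pool.Agent.H820.RT.Rot

/-!
The contraction of the invariant forms.
-/

set_option autoImplicit false

open Set Topology Filter
open scoped ContDiff unitInterval

noncomputable section

namespace Pool.Agent.H820.RT

open Pool.Agent.H820.PC

/-- the reparametrized curve -/
def scl (τ : ℝ) (G : ℝ → Fin 3 → ℝ) (t : ℝ) (i : Fin 3) : ℝ := τ * G (τ * t) i

theorem contDiff_scl (τ : ℝ) {G : ℝ → Fin 3 → ℝ} (hG : ContDiff ℝ ∞ G) :
    ContDiff ℝ ∞ (scl τ G) := by
  rw [contDiff_pi]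
  intro i
  exact contDiff_const.mul ((contDiff_pi.1 hG i).comp (contDiff_const.mul contDiff_id))

theorem YY_scl (τ : ℝ) (G : ℝ → Fin 3 → ℝ) (t : ℝ) (i : Fin 3) :
    YY (scl τ G) t i = YY G (τ * t) i := by
  unfold YY scl
  ring

theorem DY_scl (τ : ℝ) {G : ℝ → Fin 3 → ℝ} (hG : ContDiff ℝ ∞ G) (t : ℝ) (i : Fin 3) :
    DY (scl τ G) t i = τ * DY G (τ * t) i := by
  have h1 := hasDerivAt_G (contDiff_scl τ hG) t i
  have h3 := hasDerivAt_G hG (τ * t) i
  have h4 : HasDerivAt (fun t : ℝ => τ * t) τ t := by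
    simpa using (hasDerivAt_id t).const_mul τ
  have h5 : HasDerivAt (fun t => scl τ G t i) (τ * (deriv G (τ * t) i * τ)) t :=
    (h3.comp t h4).const_mul τ
  unfold DY
  rw [h1.unique h5]
  unfold scl
  ring

theorem DD_scl {τ : ℝ} (hτ0 : 0 ≤ τ) (hτ1 : τ ≤ 1) {G : ℝ → Fin 3 → ℝ} (hG : ContDiff ℝ ∞ G)
    (hD : ∀ t : ℝ, 0 ≤ t → t ≤ 1 → 0 < DD G t) {t : ℝ} (h0 : 0 ≤ t) (h1 : t ≤ 1) :
    0 < DD (scl τ G) t := by
  have hσ0 : 0 ≤ τ * t := by positivity
  have hσ1 : τ * t ≤ 1 := by nlinarith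
  have h2 := hD _ hσ0 hσ1
  have h3 := sq_of_DD h2
  have e1 : DD (scl τ G) t = (∑ i, YY G (τ * t) i * YY G (τ * t) i) -
      (1 - t) * τ * ∑ i, YY G (τ * t) i * DY G (τ * t) i := by
    unfold DD
    simp only [YY_scl, DY_scl τ hG, Fin.sum_univ_three]
    ring
  have e2 : DD G (τ * t) = (∑ i, YY G (τ * t) i * YY G (τ * t) i) -
      (1 - τ * t) * ∑ i, YY G (τ * t) i * DY G (τ * t) i := by
    unfold DD
    simp only [Fin.sum_univ_three]
    ring
  rw [e2] at h2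
  rw [e1]
  set a := ∑ i, YY G (τ * t) i * YY G (τ * t) i
  set b := ∑ i, YY G (τ * t) i * DY G (τ * t) i
  have h5 : 0 ≤ (1 - t) * τ := mul_nonneg (by linarith) hτ0
  rcases le_total b 0 with h6 | h6
  · have := mul_nonneg h5 (neg_nonneg.2 h6)
    linarith
  · have h7 : (1 - t) * τ ≤ 1 - τ * t := by nlinarith
    have := mul_le_mul_of_nonneg_right h7 h6
    linarith

theorem ext2 {A B : TwoForm} (h : ∀ z : C3, z ≠ 0 → ∀ v w : C3, A.1 z ![v, w] = B.1 z ![v, w]) :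
    A = B := by
  have h1 : A.1 = B.1 := by
    funext z
    rcases eq_or_ne z 0 with hz | hz
    · rw [hz, A.2.zero, B.2.zero]
    · ext v
      have e : v = ![v 0, v 1] := by
        funext j
        fin_cases j <;> rfl
      rw [e]
      exact h z hz _ _
  cases A
  cases B
  cases h1
  rfl

theorem KG_comb {G H L : ℝ → Fin 3 → ℝ} (hG : ContDiff ℝ ∞ G) (hH : ContDiff ℝ ∞ H)
    (hL : ContDiff ℝ ∞ L) {a b : ℝ} (hab : a + b = 1) (h : ∀ t i, L t i = a * G t i + b * H t i) :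
    KG L hL = a • KG G hG + b • KG H hH := by
  apply ext2
  intro z hz v w
  rw [add_at', smul_at', smul_at', KG_at hL hz, KG_at hG hz, KG_at hH hz]
  have h1 : Lam L = a • Lam G + b • Lam H := by
    funext z
    ext v
    show Lam L z v = a * Lam G z v + b * Lam H z v
    rw [Lam_apply, Lam_apply, Lam_apply]
    unfold b0 b1 b2 b3
    rw [h, h, h]
    ring
  rw [h1, extDeriv_comb (isForm_Lam hG) (isForm_Lam hH) a b hz]
  have : a * fs z v w + b * fs z v w = fs z v w := by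
    rw [← add_mul, hab, one_mul]
  linarith

section joint

/-- pairs with a nonzero second component -/
def VV : Set (ℝ × C3) := {p | p.2 ≠ 0}

theorem isOpen_VV : IsOpen VV := isOpen_ne.preimage continuous_snd

variable {W : Type} [NormedAddCommGroup W] [NormedSpace ℝ W]

theorem slice_fderiv {f : ℝ × C3 → W} (hf : ContDiffOn ℝ ∞ f VV) {p : ℝ × C3} (hp : p ∈ VV) :
    fderiv ℝ (fun z => f (p.1, z)) p.2 = (fderiv ℝ f p).comp (ContinuousLinearMap.inr ℝ ℝ C3) := by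
  have h0 : DifferentiableAt ℝ f p :=
    (hf.contDiffAt (isOpen_VV.mem_nhds hp)).differentiableAt (by simp)
  have h1 : HasFDerivAt f (fderiv ℝ f p) ((fun z : C3 => (p.1, z)) p.2) := h0.hasFDerivAt
  have h2 : HasFDerivAt (fun z : C3 => (p.1, z)) (ContinuousLinearMap.inr ℝ ℝ C3) p.2 :=
    hasFDerivAt_prodMk_right p.1 p.2
  exact (h1.comp p.2 h2).fderiv

theorem smooth_slice_fderiv {f : ℝ × C3 → W} (hf : ContDiffOn ℝ ∞ f VV) :
    ContDiffOn ℝ ∞ (fun p : ℝ × C3 => fderiv ℝ (fun z => f (p.1, z)) p.2) VV := by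
  have h1 : ContDiffOn ℝ ∞ (fderiv ℝ f) VV := hf.fderiv_of_isOpen isOpen_VV (by norm_cast)
  have h2 : ContDiffOn ℝ ∞ (fun p => (fderiv ℝ f p).comp (ContinuousLinearMap.inr ℝ ℝ C3)) VV :=
    h1.clm_comp contDiffOn_const
  exact h2.congr fun p hp => slice_fderiv hf hp

theorem smooth_iterated {f : ℝ × C3 → W} (hf : ContDiffOn ℝ ∞ f VV) (k : ℕ) :
    ContDiffOn ℝ ∞ (fun p : ℝ × C3 => iteratedFDeriv ℝ k (fun z => f (p.1, z)) p.2) VV := by
  induction k with
  | zero =>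
    simp only [iteratedFDeriv_zero_eq_comp]
    exact (continuousMultilinearCurryFin0 ℝ C3 W).symm.contDiff.comp_contDiffOn hf
  | succ n ih =>
    simp only [iteratedFDeriv_succ_eq_comp_left]
    exact (continuousMultilinearCurryLeftEquiv ℝ (fun _ : Fin (n + 1) => C3) W).symm.contDiff.comp_contDiffOn
      (smooth_slice_fderiv ih)

end joint

/-- a family of two-forms which is smooth in the parameter and the point is a continuous family -/
theorem continuous_of_joint {A : ℝ → TwoForm} (h : ContDiffOn ℝ ∞ (fun p : ℝ × C3 => (A p.1).1 p.2) VV) :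
    Continuous A := by
  rw [top_eq, continuous_iInf_rng]
  intro k
  rw [continuous_induced_rng]
  apply ContinuousMap.continuous_of_continuous_uncurry
  have h1 := smooth_iterated h k
  have h2 : Continuous fun p : ℝ × Dom => (⟨(p.1, p.2.1), p.2.2⟩ : VV) :=
    Continuous.subtype_mk (by fun_prop) _
  have h3 := (continuousOn_iff_continuous_domRestrict.1 h1.continuousOn).comp h2
  exact h3

theorem smooth_Lam {G : ℝ → Fin 3 → ℝ} (hG : ContDiff ℝ ∞ G) :
    ContDiffOn ℝ ∞ (fun p : ℝ × C3 => Lam (scl p.1 G) p.2) VV := by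
  have hsnd : ContDiffOn ℝ ∞ (fun p : ℝ × C3 => p.2) VV := contDiff_snd.contDiffOn
  have hT : ContDiffOn ℝ ∞ (fun p : ℝ × C3 => T p.2) VV := contDiffOn_T.comp hsnd fun p hp => hp
  have hq : ∀ k, ContDiffOn ℝ ∞ (fun p : ℝ × C3 => ((‖p.2‖ ^ 2) ^ k)⁻¹) VV := fun k =>
    (contDiffOn_q k).comp hsnd fun p hp => hp
  have hf : ContDiffOn ℝ ∞ (fun p : ℝ × C3 => p.1) VV := contDiff_fst.contDiffOn
  have hg : ∀ i, ContDiffOn ℝ ∞ (fun p : ℝ × C3 => scl p.1 G (T p.2) i) VV := fun i =>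
    hf.mul ((contDiff_pi.1 hG i).comp_contDiffOn (hf.mul hT))
  have h1 : ContDiffOn ℝ ∞ (fun p : ℝ × C3 => b0 (scl p.1 G) p.2 • tau p.2 +
      b1 (scl p.1 G) p.2 • sig F0 p.2 + b2 (scl p.1 G) p.2 • th 1 p.2 +
      b3 (scl p.1 G) p.2 • th (-Complex.I) p.2) VV := by
    refine ((ContDiffOn.add ?_ ?_).add ?_).add ?_
    · exact ((contDiffOn_const.mul ((hg 0).mul hT)).mul (hq 1)).smul
        (tau.contDiff.comp_contDiffOn hsnd)
    · exact ((contDiffOn_const.mul (hg 0)).mul (hq 1)).smul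
        ((contDiff_sig hom_F0.smooth).comp_contDiffOn hsnd)
    · exact ((contDiffOn_const.mul (hg 1)).mul (hq 2)).smul ((contDiff_th 1).comp_contDiffOn hsnd)
    · exact ((contDiffOn_const.mul (hg 2)).mul (hq 2)).smul
        ((contDiff_th (-Complex.I)).comp_contDiffOn hsnd)
  exact covM.contDiff.comp_contDiffOn h1

theorem continuous_KG {G : ℝ → Fin 3 → ℝ} (hG : ContDiff ℝ ∞ G) :
    Continuous fun τ : ℝ => KG (scl τ G) (contDiff_scl τ hG) := by
  apply continuous_of_joint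
  have h1 : ContDiffOn ℝ ∞ (fun p : ℝ × C3 => fsForm.1 p.2) VV :=
    fsForm.2.smooth.comp contDiff_snd.contDiffOn fun p hp => hp
  have h2 := (ContinuousAlternatingMap.alternatizeUncurryFinCLM ℝ C3 ℝ).contDiff.comp_contDiffOn
    (smooth_slice_fderiv (smooth_Lam hG))
  refine (h1.add h2).congr fun p hp => ?_
  show fsForm.1 p.2 + dB (Lam (scl p.1 G)) p.2 = _
  rw [dB_ne _ hp]
  rfl

/-- the path of the contraction -/
def PP (G : ℝ → Fin 3 → ℝ) (hG : ContDiff ℝ ∞ G) : C(I, TwoForm) :=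
  ⟨fun τ => KG (scl τ G) (contDiff_scl τ hG), (continuous_KG hG).comp continuous_subtype_val⟩

theorem PP_comb {G H L : ℝ → Fin 3 → ℝ} (hG : ContDiff ℝ ∞ G) (hH : ContDiff ℝ ∞ H)
    (hL : ContDiff ℝ ∞ L) {a b : ℝ} (hab : a + b = 1) (h : ∀ t i, L t i = a * G t i + b * H t i) :
    PP L hL = a • PP G hG + b • PP H hH := by
  ext1 τ
  show KG (scl τ L) (contDiff_scl τ hL) = a • KG (scl τ G) (contDiff_scl τ hG) +
    b • KG (scl τ H) (contDiff_scl τ hH)
  apply KG_comb _ _ _ hab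
  intro t i
  unfold scl
  rw [h]
  ring

theorem PP_one {G : ℝ → Fin 3 → ℝ} (hG : ContDiff ℝ ∞ G) : PP G hG 1 = KG G hG := by
  show KG (scl ((1 : I) : ℝ) G) (contDiff_scl _ hG) = _
  congr 1
  funext t i
  unfold scl
  simp

/-- the zero curve -/
def Z0 (_ : ℝ) (_ : Fin 3) : ℝ := 0

theorem contDiff_Z0 : ContDiff ℝ ∞ Z0 := contDiff_const

theorem PP_zero {G : ℝ → Fin 3 → ℝ} (hG : ContDiff ℝ ∞ G) : PP G hG 0 = KG Z0 contDiff_Z0 := by
  show KG (scl ((0 : I) : ℝ) G) (contDiff_scl _ hG) = _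
  congr 1
  funext t i
  unfold scl Z0
  simp

end Pool.Agent.H820.RT
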