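import Pool.Agent.H820.RT.Adm

/-!
The two descriptions of the set of forms; the invariant forms and the segments belong to it.
-/

set_option autoImplicit false

open Set Topology Filter
open scoped ContDiff

noncomputable section

namespace Pool.Agent.H820.RT

open Pool.Agent.H820.PC

theorem coe_smul' (r : ℝ) (v : C3) : (r : ℂ) • v = r • v := by
  ext i
  simp

/-- a tangent vector with vanishing first coordinate -/
theorem J_w (s c : ℝ) (y : Fin 2 → ℂ) (h : Par s c y) :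
    J (mk 0 (y 0) (y 1)) = ((c : ℂ) * Complex.I) • zz s c y + s • J (rr s c y) := by
  have h1 := h.sc'
  rw [← coe_smul' s]
  apply mk_ext
  · show Complex.I * 0 = (c : ℂ) * Complex.I * (s : ℂ) + (s : ℂ) * (Complex.I * (-(c : ℂ)))
    ring
  · show Complex.I * y 0 = (c : ℂ) * Complex.I * ((c : ℂ) * y 0) +
      (s : ℂ) * (Complex.I * ((s : ℂ) * y 0))
    linear_combination (-(Complex.I * y 0)) * h1
  · show Complex.I * y 1 = (c : ℂ) * Complex.I * ((c : ℂ) * y 1) +
      (s : ℂ) * (Complex.I * ((s : ℂ) * y 1))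
    linear_combination (-(Complex.I * y 1)) * h1

theorem area_eq (Ω : TwoForm) (u : Fin 3 → ℝ) {s c : ℝ} {y : Fin 2 → ℂ} (h : Par s c y)
    (hs : s ≠ 0) : area Ω u (fun i => ((c / s : ℝ) : ℂ) * y i) =
      c ^ 2 * ∑ i, u i * pp Ω s c y i := by
  set x : Fin 2 → ℂ := fun i => ((c / s : ℝ) : ℂ) * y i with hx
  have hs' : (s : ℂ) ≠ 0 := by exact_mod_cast hs
  have hpt : (s : ℂ) • pt x = zz s c y := by
    apply mk_ext
    · show (s : ℂ) * 1 = (s : ℂ)
      ring
    · show (s : ℂ) * (((c / s : ℝ) : ℂ) * y 0) = (c : ℂ) * y 0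
      push_cast
      field_simp
    · show (s : ℂ) * (((c / s : ℝ) : ℂ) * y 1) = (c : ℂ) * y 1
      push_cast
      field_simp
  have hJ : (s : ℂ) • vec (qJ x) = c • qq y := by
    rw [← coe_smul' c]
    apply mk_ext
    · show (s : ℂ) * 0 = (c : ℂ) * 0
      ring
    · show (s : ℂ) * (-(starRingEnd ℂ) (((c / s : ℝ) : ℂ) * y 1)) =
        (c : ℂ) * (-(starRingEnd ℂ) (y 1))
      rw [map_mul, Complex.conj_ofReal]
      push_cast
      field_simp
    · show (s : ℂ) * ((starRingEnd ℂ) (((c / s : ℝ) : ℂ) * y 0)) =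
        (c : ℂ) * ((starRingEnd ℂ) (y 0))
      rw [map_mul, Complex.conj_ofReal]
      push_cast
      field_simp
  have hK : (s : ℂ) • vec (qK x) = c • J (qq y) := by
    rw [← J_smul, ← hJ, J_csmul]
    congr 1
    apply mk_ext
    · show (0 : ℂ) = Complex.I * 0
      ring
    · show -(Complex.I * (starRingEnd ℂ) (x 1)) = Complex.I * (-(starRingEnd ℂ) (x 1))
      ring
    · rfl
  have hI : (s : ℂ) • vec (qI x) = ((c : ℂ) * ((c : ℂ) * Complex.I)) • zz s c y +
      (c * s) • J (rr s c y) := by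
    have h1 : (s : ℂ) • vec (qI x) = (c : ℂ) • J (mk 0 (y 0) (y 1)) := by
      apply mk_ext
      · show (s : ℂ) * 0 = (c : ℂ) * (Complex.I * 0)
        ring
      · show (s : ℂ) * (Complex.I * (((c / s : ℝ) : ℂ) * y 0)) = (c : ℂ) * (Complex.I * y 0)
        push_cast
        field_simp
      · show (s : ℂ) * (Complex.I * (((c / s : ℝ) : ℂ) * y 1)) = (c : ℂ) * (Complex.I * y 1)
        push_cast
        field_simp
    rw [h1, J_w s c y h, smul_add, smul_smul, coe_smul' c (s • J (rr s c y)), smul_smul]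
  have hz : pt x ≠ 0 := by
    intro h0
    have : (pt x) 0 = 0 := by
      rw [h0]
      rfl
    exact one_ne_zero this
  have hH : Hor (Ω.1 (zz s c y)) (zz s c y) := Ω.2.hor (isFrame_std h).z0
  have key : ∀ v w : C3, ev Ω (pt x) v w = Ω.1 (zz s c y) ![(s : ℂ) • v, (s : ℂ) • w] := by
    intro v w
    rw [← hpt, inv2 Ω hs' hz]
    rfl
  unfold area
  rw [key, key, key, hJ, hK, hI, hH.add_right, hH.add_left, Fin.sum_univ_three]
  have f0 : pp Ω s c y 0 = Ω.1 (zz s c y) ![qq y, J (qq y)] := rfl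
  have f1 : pp Ω s c y 1 = s * Ω.1 (zz s c y) ![J (qq y), J (rr s c y)] := rfl
  have f2 : pp Ω s c y 2 = s * Ω.1 (zz s c y) ![J (rr s c y), qq y] := rfl
  rw [f0, f1, f2]
  simp only [bil_smul_left, bil_smul_right]
  ring

theorem rotP_of {Ω : TwoForm} (h : Rotating Ω) : RotP Ω := by
  refine ⟨h.symplectic, ?_, ?_⟩
  · intro c y hp
    have hf := isFrame_std hp
    exact h.line _ _ hf.z0 rfl rfl fun a => hf.not_vertical' a
  · intro t h0 h1
    have hst : 0 < √t := Real.sqrt_pos.2 h0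
    have hct : 0 < √(1 - t) := Real.sqrt_pos.2 (by linarith)
    obtain ⟨u, hu⟩ := h.spheres (√(1 - t) / √t) (by positivity)
    refine ⟨u, fun s c y hp hs => ?_⟩
    have hs1 : s = √t := by
      rw [← hs, Real.sqrt_sq hp.s0]
    have hc1 : c = √(1 - t) := by
      rw [← hs, ← hp.c2, Real.sqrt_sq hp.c0]
    have hs0 : s ≠ 0 := by
      rw [hs1]
      exact hst.ne'
    have hc0 : 0 < c := by
      rw [hc1]
      exact hct
    have h2 := hu (fun i => ((c / s : ℝ) : ℂ) * y i) (by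
      rw [norm_mul, norm_mul, Complex.norm_real, Real.norm_eq_abs, mul_pow, mul_pow, sq_abs,
        ← hs1, ← hc1, ← mul_add, hp.ny, mul_one])
    rw [area_eq Ω u hp hs0] at h2
    exact (pos_iff_pos_of_mul_pos h2).1 (by positivity)

theorem rot_of {Ω : TwoForm} (h : RotP Ω) : Rotating Ω := by
  refine ⟨h.symplectic, ?_, ?_⟩
  · intro z v hz hz0 hv0 hv
    set a : ℂ := (‖z‖ : ℂ)⁻¹ with ha
    have ha0 : a ≠ 0 := unit_ne hz
    have hz1 : ‖a • z‖ = 1 := norm_unit hz
    obtain ⟨φ, s, c, y, hφ, hp, hT, hzz⟩ := exists_point hz1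
    have hφ0 : φ ≠ 0 := by
      intro h0
      rw [h0, norm_zero] at hφ
      exact zero_ne_one hφ
    have hs : s = 0 := by
      rw [T_unit hz1] at hT
      have h1 : (a • z) 0 = 0 := by
        show a * z 0 = 0
        rw [hz0, mul_zero]
      rw [h1, norm_zero] at hT
      have : s ^ 2 = 0 := by
        rw [← hT]
        norm_num
      exact pow_eq_zero_iff (by norm_num) |>.1 this
    subst hs
    set b : ℂ := φ⁻¹ * a with hb
    have hb0 : b ≠ 0 := mul_ne_zero (inv_ne_zero hφ0) ha0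
    have hbz : b • z = zz 0 c y := by
      rw [hb, mul_smul, hzz, smul_smul, inv_mul_cancel₀ hφ0, one_smul]
    have hf := isFrame_std hp
    set w : C3 := b • v with hw
    have hw0 : w 0 = 0 := by
      show b * v 0 = 0
      rw [hv0, mul_zero]
    have hwr : inner ℂ (rr 0 c y) w = 0 := by
      rw [inner_coord, hw0]
      have e1 : (rr 0 c y) 1 = 0 := by
        show ((0 : ℝ) : ℂ) * y 0 = 0
        simp
      have e2 : (rr 0 c y) 2 = 0 := by
        show ((0 : ℝ) : ℂ) * y 1 = 0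
        simp
      rw [e1, e2]
      simp
    have hexp := hf.expand w
    rw [hwr, zero_smul, add_zero] at hexp
    set p : ℂ := inner ℂ (zz 0 c y) w
    set q : ℂ := inner ℂ (qq y) w
    have hq : q ≠ 0 := by
      intro h0
      rw [h0, zero_smul, add_zero, ← hbz] at hexp
      have h2 : v = p • z := by
        have h3 : b • v = b • (p • z) := by
          rw [smul_comm b p z]
          exact hexp
        exact (smul_right_injective C3 hb0) h3
      exact hv _ h2
    have hH : Hor (Ω.1 (zz 0 c y)) (zz 0 c y) := Ω.2.hor hf.z0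
    have e1 : ev Ω z v (J v) = Ω.1 (zz 0 c y) ![w, J w] := by
      rw [hw, J_csmul, ← hbz, inv2 Ω hb0 hz]
      rfl
    have e3 : J w = (Complex.I * p) • zz 0 c y + J (q • qq y) := by
      rw [hexp, J_add]
      congr 1
      unfold J
      rw [smul_smul]
    rw [e1, e3, hH.add_right, hexp, hH.add_left, bil_csmul_J]
    exact mul_pos (Complex.normSq_pos.2 hq) (h.line c y hp)
  · intro r hr
    set d : ℝ := √(1 + r ^ 2) with hd
    have hd2 : d ^ 2 = 1 + r ^ 2 := Real.sq_sqrt (by positivity)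
    have hd0 : 0 < d := Real.sqrt_pos.2 (by positivity)
    obtain ⟨u, hu⟩ := h.spheres ((1 / d) ^ 2) (by positivity) (by
      rw [div_pow, one_pow, hd2, div_lt_one (by positivity)]
      nlinarith)
    refine ⟨u, fun x hx => ?_⟩
    have hp : Par (1 / d) (r / d) (fun i => ((1 / r : ℝ) : ℂ) * x i) := by
      refine ⟨by positivity, by positivity, ?_, ?_⟩
      · rw [div_pow, div_pow, hd2]
        field_simp
      · show ‖((1 / r : ℝ) : ℂ) * x 0‖ ^ 2 + ‖((1 / r : ℝ) : ℂ) * x 1‖ ^ 2 = 1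
        rw [norm_mul, norm_mul, Complex.norm_real, Real.norm_eq_abs, mul_pow, mul_pow, sq_abs,
          ← mul_add, hx]
        field_simp
    have h2 := hu _ _ _ hp rfl
    have h3 := area_eq Ω u hp (by positivity)
    have h4 : (fun i => ((r / d / (1 / d) : ℝ) : ℂ) * (((1 / r : ℝ) : ℂ) * x i)) = x := by
      funext i
      have hr' : (r : ℂ) ≠ 0 := by exact_mod_cast hr.ne'
      have hd' : (d : ℂ) ≠ 0 := by exact_mod_cast hd0.ne'
      push_cast
      field_simp
    rw [h4] at h3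
    rw [h3]
    exact mul_pos (by positivity) h2

theorem rotating_iff (Ω : TwoForm) : Rotating Ω ↔ RotP Ω := ⟨rotP_of, rot_of⟩

/-- positive wedge products can be tested on the standard frames -/
theorem wd_of_std {Ω κ : TwoForm} (h : ∀ (s c : ℝ) (y : Fin 2 → ℂ), Par s c y →
    0 < wd (Ω.1 (zz s c y)) (κ.1 (zz s c y)) (qq y) (rr s c y)) :
    ∀ z e n, IsFrame z e n → 0 < wd (Ω.1 z) (κ.1 z) e n := by
  intro z e n hf
  obtain ⟨s, c, y, hp, -, hw⟩ := exists_std hf
  rw [hw]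
  exact h s c y hp

theorem closed_KG {G : ℝ → Fin 3 → ℝ} (hG : ContDiff ℝ ∞ G) :
    ∀ z : C3, z ≠ 0 → extDeriv (KG G hG).1 z = 0 := by
  intro z hz
  have h1 := closed_comb (a := fsForm)
    (b := mkTwo (dB (Lam G)) (isForm_dB (isForm_Lam hG).isConn)) fsForm_closed
    (fun z hz => closed_dB (isForm_Lam hG).smooth hz) 1 1 z hz
  rw [one_smul, one_smul] at h1
  exact h1

theorem sc_le {s c : ℝ} {y : Fin 2 → ℂ} (h : Par s c y) : s ^ 2 ≤ 1 := by
  have := h.sc
  nlinarith [sq_nonneg c]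

theorem symplectic_KG {G : ℝ → Fin 3 → ℝ} (hG : ContDiff ℝ ∞ G)
    (hD : ∀ t : ℝ, 0 ≤ t → t ≤ 1 → 0 < DD G t) : IsSymplectic (KG G hG) := by
  refine ⟨closed_iff.2 (closed_KG hG), ⟨Lam G, isForm_Lam hG, fun z v w hz => KG_at hG hz v w⟩, ?_⟩
  apply pos_of_frames
  intro z e n hf
  have h1 := wd_of_std (Ω := KG G hG) (κ := KG G hG) (fun s c y hp => by
    rw [wd_self, pfA_KG hG hp]
    have := hD (s ^ 2) (sq_nonneg _) (sc_le hp)
    linarith) z e n hf
  rw [wd_self] at h1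
  linarith

theorem sq_of_DD {G : ℝ → Fin 3 → ℝ} {t : ℝ} (h : 0 < DD G t) : 0 < ∑ i, YY G t i * YY G t i := by
  by_contra hcon
  have h3 : ∑ i, YY G t i * YY G t i = 0 := le_antisymm (not_lt.1 hcon)
    (Finset.sum_nonneg fun i _ => mul_self_nonneg _)
  rw [Finset.sum_eq_zero_iff_of_nonneg fun i _ => mul_self_nonneg _] at h3
  have h4 : ∀ i, YY G t i = 0 := fun i => mul_self_eq_zero.1 (h3 i (Finset.mem_univ i))
  unfold DD at h
  simp [h4] at h

theorem rotP_KG {G : ℝ → Fin 3 → ℝ} (hG : ContDiff ℝ ∞ G)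
    (hD : ∀ t : ℝ, 0 ≤ t → t ≤ 1 → 0 < DD G t) : RotP (KG G hG) := by
  refine ⟨symplectic_KG hG hD, ?_, ?_⟩
  · intro c y hp
    rw [pp_KG hG hp]
    unfold YY
    norm_num
  · intro t h0 h1
    refine ⟨YY G t, fun s c y hp hs => ?_⟩
    simp only [pp_KG hG hp, hs]
    exact sq_of_DD (hD t h0.le h1.le)

theorem pp_comb (Ω κ : TwoForm) (a b : ℝ) (s c : ℝ) (y : Fin 2 → ℂ) (i : Fin 3) :
    pp (a • Ω + b • κ) s c y i = a * pp Ω s c y i + b * pp κ s c y i := by
  fin_cases i
  · exact rfl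
  · show s * (a * Ω.1 (zz s c y) ![J (qq y), J (rr s c y)] +
      b * κ.1 (zz s c y) ![J (qq y), J (rr s c y)]) =
      a * (s * Ω.1 (zz s c y) ![J (qq y), J (rr s c y)]) +
      b * (s * κ.1 (zz s c y) ![J (qq y), J (rr s c y)])
    ring
  · show s * (a * Ω.1 (zz s c y) ![J (rr s c y), qq y] +
      b * κ.1 (zz s c y) ![J (rr s c y), qq y]) =
      a * (s * Ω.1 (zz s c y) ![J (rr s c y), qq y]) +
      b * (s * κ.1 (zz s c y) ![J (rr s c y), qq y])
    ring

/-- the segment between two symplectic forms with a positive wedge product -/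
theorem seg_sym {Ω κ : TwoForm} (h : IsSymplectic Ω) (hk : IsSymplectic κ)
    (hw : ∀ z e n, IsFrame z e n → 0 < wd (Ω.1 z) (κ.1 z) e n) {t : ℝ} (h0 : 0 ≤ t)
    (h1 : t ≤ 1) : IsSymplectic ((1 - t) • Ω + t • κ) := by
  rcases h0.eq_or_lt with ht | ht
  · rw [← ht, sub_zero, one_smul, zero_smul, add_zero]
    exact h
  have h1' : 0 ≤ 1 - t := by linarith
  refine ⟨closed_iff.2 (closed_comb (closed_iff.1 h.closed) (closed_iff.1 hk.closed) _ _),
    cohomologous_comb h.cohomologous hk.cohomologous (by ring),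
    pos_of_frames ?_⟩
  intro z e n hf
  rw [add_at, smul_at, smul_at, pfA_add, pfA_smul, pfA_smul, wd_smul_left, wd_smul_right]
  have a1 : 0 < pfA (Ω.1 z) e n := frame_pos h.positive hf
  have a2 : 0 < pfA (κ.1 z) e n := frame_pos hk.positive hf
  have a3 := hw z e n hf
  have b1 : 0 ≤ (1 - t) ^ 2 * pfA (Ω.1 z) e n := by positivity
  have b2 : 0 < t ^ 2 * pfA (κ.1 z) e n := by positivity
  have b3 : 0 ≤ (1 - t) * (t * wd (Ω.1 z) (κ.1 z) e n) := by positivity
  linarith

/-- the segment from a form to an adapted invariant form -/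
theorem seg_rot {Ω : TwoForm} (h : RotP Ω) {U : ℝ → Fin 3 → ℝ} (hU : ContDiff ℝ ∞ U)
    (hA : Adm Ω U) {μ : ℝ → ℝ} (hμ : ContDiff ℝ ∞ μ)
    (hm : ∀ t : ℝ, 0 ≤ t → t ≤ 1 → 0 < 1 + t * μ t)
    (hD : ∀ t : ℝ, 0 ≤ t → t ≤ 1 → 0 < DD (mulG μ U) t)
    (hw : ∀ (s c : ℝ) (y : Fin 2 → ℂ), Par s c y → 0 < wd (Ω.1 (zz s c y))
        ((KG _ (contDiff_mulG hμ hU)).1 (zz s c y)) (qq y) (rr s c y)) {t : ℝ} (h0 : 0 ≤ t)
    (h1 : t ≤ 1) : RotP ((1 - t) • Ω + t • KG _ (contDiff_mulG hμ hU)) := by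
  have hK := rotP_KG (contDiff_mulG hμ hU) hD
  refine ⟨seg_sym h.symplectic hK.symplectic (wd_of_std hw) h0 h1, ?_, ?_⟩
  · intro c y hp
    rw [pp_comb]
    have a1 := h.line c y hp
    have a2 := hK.line c y hp
    rcases h0.eq_or_lt with h3 | h3
    · rw [← h3]
      linarith
    · have := mul_pos h3 a2
      have := mul_nonneg (by linarith : 0 ≤ 1 - t) a1.le
      linarith
  · intro x hx0 hx1
    refine ⟨YY U x, fun s c y hp hs => ?_⟩
    have a1 := hA.pos s c y hp
    rw [hs] at a1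
    have e : ∑ i, YY U x i * pp ((1 - t) • Ω + t • KG _ (contDiff_mulG hμ hU)) s c y i =
        (1 - t) * ∑ i, YY U x i * pp Ω s c y i +
          t * ((1 + x * μ x) * ∑ i, YY U x i ^ 2) := by
      simp only [pp_comb, pp_KG (contDiff_mulG hμ hU) hp, hs, YY_mulG, Fin.sum_univ_three]
      ring
    rw [e]
    have a2 := hA.sq_pos hx0.le hx1.le
    have a3 := mul_pos (hm x hx0.le hx1.le) a2
    rcases h0.eq_or_lt with h3 | h3
    · rw [← h3]
      linarith
    · have := mul_pos h3 a3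
      have := mul_nonneg (by linarith : 0 ≤ 1 - t) a1.le
      linarith

end Pool.Agent.H820.RT
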