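import Pool.Agent.H820.RT.Vals

/-!
Standard frames, and products of curves with functions.
-/

set_option autoImplicit false

open Set Topology Filter
open scoped ContDiff

noncomputable section

namespace Pool.Agent.H820.RT

open Pool.Agent.H820.PC

theorem inv2 (Ω : TwoForm) {φ : ℂ} (hφ : φ ≠ 0) {z : C3} (hz : z ≠ 0) (v w : C3) :
    Ω.1 (φ • z) ![φ • v, φ • w] = Ω.1 z ![v, w] := by
  rw [← Ω.2.invariant φ z ![v, w] hφ hz]
  congr 1
  funext i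
  fin_cases i <;> rfl

theorem inv_wd (Ω κ : TwoForm) {φ : ℂ} (hφ : φ ≠ 0) {z : C3} (hz : z ≠ 0) (v w : C3) :
    wd (Ω.1 (φ • z)) (κ.1 (φ • z)) (φ • v) (φ • w) = wd (Ω.1 z) (κ.1 z) v w := by
  unfold wd
  simp only [J_csmul, inv2 Ω hφ hz, inv2 κ hφ hz]

theorem phase_frame {z e n : C3} (h : IsFrame z e n) {φ : ℂ} (hφ : ‖φ‖ = 1) :
    IsFrame (φ • z) (φ • e) (φ • n) := by
  have k : (starRingEnd ℂ) φ * φ = 1 := by
    rw [Complex.conj_mul', hφ]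
    simp
  obtain ⟨h1, h2, h3, h4, h5, h6⟩ := h
  refine ⟨?_, ?_, ?_, ?_, ?_, ?_⟩
  · rw [norm_smul, hφ, one_mul, h1]
  · rw [norm_smul, hφ, one_mul, h2]
  · rw [norm_smul, hφ, one_mul, h3]
  · rw [inner_smul_left, inner_smul_right, h4, mul_zero, mul_zero]
  · rw [inner_smul_left, inner_smul_right, h5, mul_zero, mul_zero]
  · rw [inner_smul_left, inner_smul_right, h6, mul_zero, mul_zero]

/-- every unit vector is a multiple of a standard point -/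
theorem exists_point {z : C3} (hz : ‖z‖ = 1) : ∃ (φ : ℂ) (s c : ℝ) (y : Fin 2 → ℂ), ‖φ‖ = 1 ∧
    Par s c y ∧ T z = s ^ 2 ∧ z = φ • zz s c y := by
  have hn := norm_sq_eq z
  rw [hz] at hn
  set s : ℝ := ‖z 0‖ with hs
  have hs0 : 0 ≤ s := norm_nonneg _
  have hc0 : 0 ≤ 1 - s ^ 2 := by nlinarith [sq_nonneg ‖z 1‖, sq_nonneg ‖z 2‖]
  set c : ℝ := √(1 - s ^ 2) with hc
  have hcc : c ^ 2 = 1 - s ^ 2 := Real.sq_sqrt hc0
  have hcn : 0 ≤ c := Real.sqrt_nonneg _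
  obtain ⟨φ, hφ, hφ'⟩ : ∃ φ : ℂ, ‖φ‖ = 1 ∧ z 0 = φ * s := by
    by_cases h0 : z 0 = 0
    · exact ⟨1, norm_one, by rw [hs, h0]; simp⟩
    · have h1 : (s : ℂ) ≠ 0 := by
        rw [hs]
        exact_mod_cast norm_ne_zero_iff.2 h0
      refine ⟨z 0 / s, ?_, by field_simp⟩
      rw [norm_div, Complex.norm_real, Real.norm_eq_abs, abs_of_nonneg hs0]
      exact div_self (by exact_mod_cast h1)
  have hφ0 : φ ≠ 0 := by
    intro h0
    rw [h0, norm_zero] at hφ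
    exact zero_ne_one hφ
  by_cases hc1 : c = 0
  · refine ⟨φ, s, c, ![1, 0], hφ, ⟨hs0, hcn, by rw [hcc]; ring, by simp⟩, T_unit hz, ?_⟩
    have h2 : ‖z 1‖ ^ 2 + ‖z 2‖ ^ 2 = 0 := by
      rw [hc1] at hcc
      nlinarith
    have h3 : z 1 = 0 := by
      have : ‖z 1‖ ^ 2 = 0 := by nlinarith [sq_nonneg ‖z 1‖, sq_nonneg ‖z 2‖]
      exact norm_eq_zero.1 (pow_eq_zero_iff (by norm_num) |>.1 this)
    have h4 : z 2 = 0 := by
      have : ‖z 2‖ ^ 2 = 0 := by nlinarith [sq_nonneg ‖z 1‖, sq_nonneg ‖z 2‖]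
      exact norm_eq_zero.1 (pow_eq_zero_iff (by norm_num) |>.1 this)
    apply mk_ext
    · show z 0 = φ * (s : ℂ)
      exact hφ'
    · show z 1 = φ * ((c : ℂ) * 1)
      rw [h3, hc1]
      simp
    · show z 2 = φ * ((c : ℂ) * 0)
      rw [h4]
      simp
  · have hc2 : (c : ℂ) ≠ 0 := by exact_mod_cast hc1
    refine ⟨φ, s, c, ![φ⁻¹ * z 1 / c, φ⁻¹ * z 2 / c], hφ,
      ⟨hs0, hcn, by rw [hcc]; ring, ?_⟩, T_unit hz, ?_⟩
    · show ‖φ⁻¹ * z 1 / c‖ ^ 2 + ‖φ⁻¹ * z 2 / c‖ ^ 2 = 1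
      rw [norm_div, norm_div, norm_mul, norm_mul, norm_inv, hφ, Complex.norm_real,
        Real.norm_eq_abs, div_pow, div_pow, sq_abs, hcc]
      have : 1 - s ^ 2 ≠ 0 := by
        rw [← hcc]
        exact pow_ne_zero _ hc1
      field_simp
      linarith
    · apply mk_ext
      · show z 0 = φ * (s : ℂ)
        exact hφ'
      · show z 1 = φ * ((c : ℂ) * (φ⁻¹ * z 1 / c))
        field_simp
      · show z 2 = φ * ((c : ℂ) * (φ⁻¹ * z 2 / c))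
        field_simp

theorem exists_std {z e n : C3} (h : IsFrame z e n) : ∃ (s c : ℝ) (y : Fin 2 → ℂ), Par s c y ∧
    T z = s ^ 2 ∧ ∀ Ω κ : TwoForm, wd (Ω.1 z) (κ.1 z) e n =
      wd (Ω.1 (zz s c y)) (κ.1 (zz s c y)) (qq y) (rr s c y) := by
  obtain ⟨φ, s, c, y, hφ, hp, hT, hz⟩ := exists_point h.nz
  refine ⟨s, c, y, hp, hT, fun Ω κ => ?_⟩
  have hφ0 : φ ≠ 0 := by
    intro h0
    rw [h0, norm_zero] at hφ
    exact zero_ne_one hφ
  have h1 := phase_frame (isFrame_std hp) hφ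
  rw [← hz] at h1
  rw [← wd_frame h h1, hz, inv_wd Ω κ hφ0 (isFrame_std hp).z0]

/-- the product of the curve `1 + t U` with the function `1 + t μ` -/
def mulG (μ : ℝ → ℝ) (U : ℝ → Fin 3 → ℝ) (t : ℝ) (i : Fin 3) : ℝ :=
  (if i = 0 then μ t else 0) + (1 + t * μ t) * U t i

theorem contDiff_mulG {μ : ℝ → ℝ} {U : ℝ → Fin 3 → ℝ} (hμ : ContDiff ℝ ∞ μ)
    (hU : ContDiff ℝ ∞ U) : ContDiff ℝ ∞ (mulG μ U) := by
  rw [contDiff_pi]
  intro i
  unfold mulG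
  have h1 : ContDiff ℝ ∞ fun t : ℝ => (if i = 0 then μ t else 0) := by
    split_ifs
    · exact hμ
    · exact contDiff_const
  exact h1.add ((contDiff_const.add (contDiff_id.mul hμ)).mul (contDiff_pi.1 hU i))

theorem YY_mulG (μ : ℝ → ℝ) (U : ℝ → Fin 3 → ℝ) (t : ℝ) (i : Fin 3) :
    YY (mulG μ U) t i = (1 + t * μ t) * YY U t i := by
  unfold YY mulG
  split_ifs <;> ring

/-- the derivative of `1 + t μ` -/
def dm (μ : ℝ → ℝ) (t : ℝ) : ℝ := μ t + t * deriv μ t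

theorem deriv_mulG {μ : ℝ → ℝ} {U : ℝ → Fin 3 → ℝ} (hμ : ContDiff ℝ ∞ μ)
    (hU : ContDiff ℝ ∞ U) (t : ℝ) (i : Fin 3) : deriv (mulG μ U) t i =
      (if i = 0 then deriv μ t else 0) + (dm μ t * U t i + (1 + t * μ t) * deriv U t i) := by
  have h1 := hasDerivAt_G (contDiff_mulG hμ hU) t i
  have h2 : HasDerivAt μ (deriv μ t) t := (hμ.differentiable (by simp) t).hasDerivAt
  have h3 := hasDerivAt_G hU t i
  have h4 : HasDerivAt (fun t : ℝ => (if i = 0 then μ t else 0)) (if i = 0 then deriv μ t else 0)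
      t := by
    split_ifs
    · exact h2
    · exact hasDerivAt_const _ _
  have h5 : HasDerivAt (fun t : ℝ => 1 + t * μ t) (dm μ t) t := by
    refine (((hasDerivAt_id t).mul h2).const_add 1).congr_deriv ?_
    unfold dm
    simp
  exact h1.unique (h4.add (h5.mul h3))

theorem DY_mulG {μ : ℝ → ℝ} {U : ℝ → Fin 3 → ℝ} (hμ : ContDiff ℝ ∞ μ)
    (hU : ContDiff ℝ ∞ U) (t : ℝ) (i : Fin 3) : DY (mulG μ U) t i =
      (1 + t * μ t) * DY U t i + dm μ t * YY U t i := by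
  unfold DY YY
  rw [deriv_mulG hμ hU]
  unfold mulG dm
  split_ifs <;> ring

/-- `K ∧ K` for a product -/
theorem DD_mulG {μ : ℝ → ℝ} {U : ℝ → Fin 3 → ℝ} (hμ : ContDiff ℝ ∞ μ)
    (hU : ContDiff ℝ ∞ U) (t : ℝ) : DD (mulG μ U) t = (1 + t * μ t) *
      ((1 + t * μ t) * DD U t - dm μ t * ((1 - t) * ∑ i, YY U t i ^ 2)) := by
  unfold DD
  simp only [YY_mulG, DY_mulG hμ hU, Fin.sum_univ_three]
  ring

/-- the part of `Ω ∧ K` which is multiplied by the derivative -/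
theorem wd_mulG (Ω : TwoForm) {μ : ℝ → ℝ} {U : ℝ → Fin 3 → ℝ} (hμ : ContDiff ℝ ∞ μ)
    (hU : ContDiff ℝ ∞ U) {s c : ℝ} {y : Fin 2 → ℂ} (h : Par s c y) :
    wd (Ω.1 (zz s c y)) ((KG _ (contDiff_mulG hμ hU)).1 (zz s c y)) (qq y) (rr s c y) =
      (1 + s ^ 2 * μ (s ^ 2)) *
        wd (Ω.1 (zz s c y)) ((KG U hU).1 (zz s c y)) (qq y) (rr s c y) -
      dm μ (s ^ 2) * ((1 - s ^ 2) * ∑ i, pp Ω s c y i * YY U (s ^ 2) i) := by
  rw [wd_KG Ω _ h, wd_KG Ω hU h]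
  simp only [YY_mulG, DY_mulG hμ hU, Fin.sum_univ_three]
  have e1 : mulG μ U (s ^ 2) 1 = (1 + s ^ 2 * μ (s ^ 2)) * U (s ^ 2) 1 := by
    unfold mulG
    simp
  have e2 : mulG μ U (s ^ 2) 2 = (1 + s ^ 2 * μ (s ^ 2)) * U (s ^ 2) 2 := by
    unfold mulG
    simp
  rw [e1, e2]
  ring

end Pool.Agent.H820.RT
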