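import Pool.Agent.H820.RT.Lam

/-!
The values of the invariant forms on adapted frames.
-/

set_option autoImplicit false
set_option linter.unusedSectionVars false

open Set Topology Filter
open scoped ContDiff

noncomputable section

namespace Pool.Agent.H820.RT

open Pool.Agent.H820.PC

theorem mk0 (a b c : ℂ) : (mk a b c) 0 = a := rfl
theorem mk1 (a b c : ℂ) : (mk a b c) 1 = b := rfl
theorem mk2 (a b c : ℂ) : (mk a b c) 2 = c := rfl

theorem mk_ext {v w : C3} (h0 : v 0 = w 0) (h1 : v 1 = w 1) (h2 : v 2 = w 2) : v = w := by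
  ext i
  fin_cases i
  · exact h0
  · exact h1
  · exact h2

theorem J_coord (v : C3) (i : Fin 3) : (J v) i = Complex.I * v i := rfl

theorem inner_coord (v w : C3) : inner ℂ v w = (starRingEnd ℂ) (v 0) * w 0 +
    (starRingEnd ℂ) (v 1) * w 1 + (starRingEnd ℂ) (v 2) * w 2 := by
  rw [PiLp.inner_apply, Fin.sum_univ_three]
  simp only [RCLike.inner_apply]
  ring

theorem LL_J_right (v w : C3) : LL v (J w) = Complex.I * LL v w := by
  rw [LL_apply, LL_apply, J_coord, J_coord]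
  ring

theorem LL_J_left (v w : C3) : LL (J v) w = Complex.I * LL v w := by
  rw [LL_apply, LL_apply, J_coord, J_coord]
  ring

theorem LL_same (v : C3) : LL v v = 0 := by
  rw [LL_apply]
  ring

theorem cpr_J (v : C3) : cpr (J v) = -Complex.I * cpr v := by
  rw [cpr_apply, cpr_apply, J_coord, map_mul, Complex.conj_I]

/-- the points of the unit sphere -/
def zz (s c : ℝ) (y : Fin 2 → ℂ) : C3 := mk (s : ℂ) ((c : ℂ) * y 0) ((c : ℂ) * y 1)

/-- the quaternionic direction -/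
def qq (y : Fin 2 → ℂ) : C3 := mk 0 (-(starRingEnd ℂ) (y 1)) ((starRingEnd ℂ) (y 0))

/-- the radial direction -/
def rr (s c : ℝ) (y : Fin 2 → ℂ) : C3 := mk (-(c : ℂ)) ((s : ℂ) * y 0) ((s : ℂ) * y 1)

/-- parameters of points -/
structure Par (s c : ℝ) (y : Fin 2 → ℂ) : Prop where
  s0 : 0 ≤ s
  c0 : 0 ≤ c
  sc : s ^ 2 + c ^ 2 = 1
  ny : ‖y 0‖ ^ 2 + ‖y 1‖ ^ 2 = 1

section

variable {s c : ℝ} {y : Fin 2 → ℂ} (h : Par s c y)

include h

theorem Par.sc' : (s : ℂ) ^ 2 + (c : ℂ) ^ 2 = 1 := by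
  have := congrArg (fun x : ℝ => (x : ℂ)) h.sc
  push_cast at this
  exact this

theorem Par.ny' : (starRingEnd ℂ) (y 0) * y 0 + (starRingEnd ℂ) (y 1) * y 1 = 1 := by
  have := congrArg (fun x : ℝ => (x : ℂ)) h.ny
  rw [Complex.conj_mul', Complex.conj_mul']
  push_cast at this
  exact this

theorem norm_zz : ‖zz s c y‖ = 1 := by
  have h1 : ‖zz s c y‖ ^ 2 = 1 := by
    rw [norm_sq_eq]
    unfold zz
    rw [mk0, mk1, mk2, norm_mul, norm_mul, Complex.norm_real, Complex.norm_real,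
      Real.norm_eq_abs, Real.norm_eq_abs, mul_pow, mul_pow, sq_abs, sq_abs]
    have h1 := h.sc
    have h2 := h.ny
    linear_combination h1 + c ^ 2 * h2
  nlinarith [norm_nonneg (zz s c y)]

theorem norm_qq : ‖qq y‖ = 1 := by
  have h1 : ‖qq y‖ ^ 2 = 1 := by
    rw [norm_sq_eq]
    unfold qq
    rw [mk0, mk1, mk2, norm_neg, RCLike.norm_conj, RCLike.norm_conj, norm_zero]
    linear_combination h.ny
  nlinarith [norm_nonneg (qq y)]

theorem norm_rr : ‖rr s c y‖ = 1 := by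
  have h1 : ‖rr s c y‖ ^ 2 = 1 := by
    rw [norm_sq_eq]
    unfold rr
    rw [mk0, mk1, mk2, norm_neg, norm_mul, norm_mul, Complex.norm_real, Complex.norm_real,
      Real.norm_eq_abs, Real.norm_eq_abs, mul_pow, mul_pow, sq_abs, sq_abs]
    have h1 := h.sc
    have h2 := h.ny
    linear_combination h1 + s ^ 2 * h2
  nlinarith [norm_nonneg (rr s c y)]

theorem inner_zq : inner ℂ (zz s c y) (qq y) = 0 := by
  rw [inner_coord]
  unfold zz qq
  rw [mk0, mk1, mk2, mk0, mk1, mk2, map_mul, map_mul, Complex.conj_ofReal]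
  ring

theorem inner_zr : inner ℂ (zz s c y) (rr s c y) = 0 := by
  rw [inner_coord]
  unfold zz rr
  rw [mk0, mk1, mk2, mk0, mk1, mk2, map_mul, map_mul, Complex.conj_ofReal, Complex.conj_ofReal]
  linear_combination (s : ℂ) * (c : ℂ) * h.ny'

theorem inner_qr : inner ℂ (qq y) (rr s c y) = 0 := by
  rw [inner_coord]
  unfold qq rr
  rw [mk0, mk1, mk2, mk0, mk1, mk2, map_zero, map_neg, Complex.conj_conj, Complex.conj_conj]
  ring

theorem isFrame_std : IsFrame (zz s c y) (qq y) (rr s c y) :=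
  ⟨norm_zz h, norm_qq h, norm_rr h, inner_zq h, inner_zr h, inner_qr h⟩

theorem T_zz : T (zz s c y) = s ^ 2 := by
  rw [T_unit (norm_zz h)]
  unfold zz
  rw [mk0, Complex.norm_real, Real.norm_eq_abs, sq_abs]

theorem LL_zq : LL (zz s c y) (qq y) = c := by
  rw [LL_apply]
  unfold zz qq
  rw [mk1, mk2, mk1, mk2]
  linear_combination (c : ℂ) * h.ny'

theorem LL_zr : LL (zz s c y) (rr s c y) = 0 := by
  rw [LL_apply]
  unfold zz rr
  rw [mk1, mk2, mk1, mk2]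
  ring

theorem LL_qr : LL (qq y) (rr s c y) = -(s : ℂ) := by
  rw [LL_apply]
  unfold qq rr
  rw [mk1, mk2, mk1, mk2]
  linear_combination -(s : ℂ) * h.ny'

theorem cpr_q : cpr (qq y) = 0 := by
  rw [cpr_apply]
  unfold qq
  rw [mk0, map_zero]

theorem cpr_r : cpr (rr s c y) = -(c : ℂ) := by
  rw [cpr_apply]
  unfold rr
  rw [mk0, map_neg, Complex.conj_ofReal]

theorem cpr_z : cpr (zz s c y) = s := by
  rw [cpr_apply]
  unfold zz
  rw [mk0, Complex.conj_ofReal]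

theorem QQ_z : QQ (zz s c y) = (s : ℂ) ^ 2 := by
  rw [QQ_eq, cpr_z h]

theorem th_q (a : ℂ) : th a (zz s c y) (qq y) = s ^ 2 * c * a.re := by
  rw [th_apply, LL_zq h, QQ_z h]
  have e : a * (s : ℂ) ^ 2 * (c : ℂ) = ((s ^ 2 * c : ℝ) : ℂ) * a := by
    push_cast
    ring
  rw [e, Complex.re_ofReal_mul]

theorem th_Jq (a : ℂ) : th a (zz s c y) (J (qq y)) = -(s ^ 2 * c * a.im) := by
  rw [th_apply, LL_J_right, LL_zq h, QQ_z h]
  have e : a * (s : ℂ) ^ 2 * (Complex.I * (c : ℂ)) = ((s ^ 2 * c : ℝ) : ℂ) * (Complex.I * a) := by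
    push_cast
    ring
  rw [e, Complex.re_ofReal_mul]
  simp

theorem th_r (a : ℂ) : th a (zz s c y) (rr s c y) = 0 := by
  rw [th_apply, LL_zr h]
  simp

theorem th_Jr (a : ℂ) : th a (zz s c y) (J (rr s c y)) = 0 := by
  rw [th_apply, LL_J_right, LL_zr h]
  simp

theorem dth_qJq (a : ℂ) : dth a (zz s c y) (qq y) (J (qq y)) = 0 := by
  unfold dth
  rw [cpr_J, cpr_q h, LL_J_right, LL_J_right, LL_same]
  simp

theorem dth_rJr (a : ℂ) : dth a (zz s c y) (rr s c y) (J (rr s c y)) = 0 := by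
  unfold dth
  rw [LL_J_right, LL_J_right, LL_same, LL_zr h]
  simp

theorem dth_qr (a : ℂ) : dth a (zz s c y) (qq y) (rr s c y) =
    2 * s * (c ^ 2 - s ^ 2) * a.re := by
  unfold dth
  rw [cpr_q h, cpr_r h, cpr_z h, QQ_z h, LL_zq h, LL_zr h, LL_qr h]
  have e : a * (2 * (s : ℂ) * (0 * 0 - -(c : ℂ) * (c : ℂ)) + 2 * (s : ℂ) ^ 2 * -(s : ℂ)) =
      ((2 * s * (c ^ 2 - s ^ 2) : ℝ) : ℂ) * a := by
    push_cast
    ring
  rw [e, Complex.re_ofReal_mul]

theorem dth_qJr (a : ℂ) : dth a (zz s c y) (qq y) (J (rr s c y)) = 2 * s * a.im := by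
  unfold dth
  rw [cpr_J, cpr_q h, cpr_r h, cpr_z h, QQ_z h, LL_zq h, LL_J_right, LL_J_right, LL_zr h, LL_qr h]
  have e : a * (2 * (s : ℂ) * (0 * (Complex.I * 0) - -Complex.I * -(c : ℂ) * (c : ℂ)) +
      2 * (s : ℂ) ^ 2 * (Complex.I * -(s : ℂ))) = ((2 * s : ℝ) : ℂ) * (-(Complex.I * a)) := by
    push_cast
    linear_combination (-2 * a * (s : ℂ) * Complex.I) * h.sc'
  rw [e, Complex.re_ofReal_mul]
  simp

theorem dth_Jqr (a : ℂ) : dth a (zz s c y) (J (qq y)) (rr s c y) =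
    -(2 * s * (c ^ 2 - s ^ 2) * a.im) := by
  unfold dth
  rw [cpr_J, cpr_q h, cpr_r h, cpr_z h, QQ_z h, LL_J_right, LL_J_left, LL_zq h, LL_zr h, LL_qr h]
  have e : a * (2 * (s : ℂ) * (-Complex.I * 0 * 0 - -(c : ℂ) * (Complex.I * (c : ℂ))) +
      2 * (s : ℂ) ^ 2 * (Complex.I * -(s : ℂ))) =
      ((2 * s * (c ^ 2 - s ^ 2) : ℝ) : ℂ) * (Complex.I * a) := by
    push_cast
    ring
  rw [e, Complex.re_ofReal_mul]
  simp

theorem dth_JqJr (a : ℂ) : dth a (zz s c y) (J (qq y)) (J (rr s c y)) = 2 * s * a.re := by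
  unfold dth
  rw [cpr_J, cpr_J, cpr_q h, cpr_r h, cpr_z h, QQ_z h, LL_J_right, LL_J_right, LL_J_left,
    LL_J_right, LL_zq h, LL_zr h, LL_qr h]
  have e : a * (2 * (s : ℂ) * (-Complex.I * 0 * (Complex.I * 0) - -Complex.I * -(c : ℂ) *
      (Complex.I * (c : ℂ))) + 2 * (s : ℂ) ^ 2 * (Complex.I * (Complex.I * -(s : ℂ)))) =
      ((2 * s : ℝ) : ℂ) * a := by
    push_cast
    linear_combination (2 * a * (s : ℂ)) * h.sc' -
      (2 * a * (s : ℂ) * ((c : ℂ) ^ 2 + (s : ℂ) ^ 2)) * Complex.I_mul_I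
  rw [e, Complex.re_ofReal_mul]

theorem hT_q : hT (zz s c y) (qq y) = 0 := by
  unfold hT qq
  rw [mk0, inner_zero_right]

theorem hT_Jq : hT (zz s c y) (J (qq y)) = 0 := by
  unfold hT
  rw [J_coord]
  unfold qq
  rw [mk0, mul_zero, inner_zero_right]

theorem hT_r : hT (zz s c y) (rr s c y) = -(s * c) := by
  unfold hT zz rr
  rw [mk0, mk0, Complex.inner]
  simp
  ring

theorem hT_Jr : hT (zz s c y) (J (rr s c y)) = 0 := by
  unfold hT
  rw [J_coord]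
  unfold zz rr
  rw [mk0, mk0, Complex.inner]
  simp

end

section values

variable {G : ℝ → Fin 3 → ℝ} (hG : ContDiff ℝ ∞ G) {s c : ℝ} {y : Fin 2 → ℂ} (h : Par s c y)

include h

theorem K_qJq : (KG G hG).1 (zz s c y) ![qq y, J (qq y)] = YY G (s ^ 2) 0 := by
  rw [KG_hor hG (norm_zz h) (inner_zq h) (inner_J_C (inner_zq h)), dth_qJq h, dth_qJq h,
    hT_q h, hT_Jq h, real_inner_self_eq_norm_sq, T_zz h]
  have h1 : ‖J (qq y)‖ ^ 2 = ‖qq y‖ ^ 2 := by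
    rw [← real_inner_self_eq_norm_sq, inner_J_J, real_inner_self_eq_norm_sq]
  have h2 : (qq y) 0 = 0 := rfl
  rw [h1, norm_qq h, h2]
  simp

theorem K_rJr : (KG G hG).1 (zz s c y) ![rr s c y, J (rr s c y)] =
    YY G (s ^ 2) 0 - c ^ 2 * DY G (s ^ 2) 0 := by
  rw [KG_hor hG (norm_zz h) (inner_zr h) (inner_J_C (inner_zr h)), dth_rJr h, dth_rJr h,
    th_r h, th_r h, th_Jr h, th_Jr h, real_inner_self_eq_norm_sq, T_zz h]
  have h1 : ‖J (rr s c y)‖ ^ 2 = ‖rr s c y‖ ^ 2 := by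
    rw [← real_inner_self_eq_norm_sq, inner_J_J, real_inner_self_eq_norm_sq]
  have h2 : inner ℝ (Complex.I * (rr s c y) 0) ((J (rr s c y)) 0) = c ^ 2 := by
    rw [J_coord, real_inner_self_eq_norm_sq, norm_mul, Complex.norm_I, one_mul]
    unfold rr
    rw [mk0, norm_neg, Complex.norm_real, Real.norm_eq_abs, sq_abs]
  rw [h1, norm_rr h, h2]
  ring

theorem K_qr : (KG G hG).1 (zz s c y) ![qq y, rr s c y] =
    -(s * (YY G (s ^ 2) 1 - c ^ 2 * DY G (s ^ 2) 1)) := by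
  rw [KG_hor hG (norm_zz h) (inner_zq h) (inner_zr h), dth_qr h, dth_qr h, th_r h, th_r h,
    th_q h, th_q h, hT_q h, hT_r h, inner_im, inner_qr h, T_zz h]
  have h2 : (qq y) 0 = 0 := rfl
  rw [h2]
  unfold YY DY
  simp
  ring

theorem K_qJr : (KG G hG).1 (zz s c y) ![qq y, J (rr s c y)] = -(s * G (s ^ 2) 2) := by
  rw [KG_hor hG (norm_zz h) (inner_zq h) (inner_J_C (inner_zr h)), dth_qJr h, dth_qJr h,
    th_Jr h, th_Jr h, th_q h, th_q h, hT_q h, hT_Jr h, inner_J_J, inner_re, inner_qr h, T_zz h]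
  have h2 : (qq y) 0 = 0 := rfl
  rw [h2]
  simp
  ring

theorem K_Jqr : (KG G hG).1 (zz s c y) ![J (qq y), rr s c y] =
    -(s * (YY G (s ^ 2) 2 - c ^ 2 * DY G (s ^ 2) 2)) := by
  rw [KG_hor hG (norm_zz h) (inner_J_C (inner_zq h)) (inner_zr h), dth_Jqr h, dth_Jqr h,
    th_r h, th_r h, th_Jq h, th_Jq h, hT_Jq h, hT_r h, J_J, inner_neg_left, inner_re,
    inner_qr h, T_zz h]
  have h2 : (J (qq y)) 0 = 0 := by
    rw [J_coord]
    exact mul_zero _
  rw [h2]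
  unfold YY DY
  simp
  ring

theorem K_JqJr : (KG G hG).1 (zz s c y) ![J (qq y), J (rr s c y)] = s * G (s ^ 2) 1 := by
  rw [KG_hor hG (norm_zz h) (inner_J_C (inner_zq h)) (inner_J_C (inner_zr h)), dth_JqJr h,
    dth_JqJr h, th_Jr h, th_Jr h, th_Jq h, th_Jq h, hT_Jq h, hT_Jr h, J_J, inner_neg_left,
    inner_J_right, inner_im, inner_qr h, T_zz h]
  have h2 : (J (qq y)) 0 = 0 := by
    rw [J_coord]
    exact mul_zero _
  rw [h2]
  simp
  ring

end values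

/-- the three functions which decide the positivity on spheres -/
def pp (Ω : TwoForm) (s c : ℝ) (y : Fin 2 → ℂ) (i : Fin 3) : ℝ :=
  ![Ω.1 (zz s c y) ![qq y, J (qq y)], s * Ω.1 (zz s c y) ![J (qq y), J (rr s c y)],
    s * Ω.1 (zz s c y) ![J (rr s c y), qq y]] i

/-- `K ∧ K` -/
def DD (G : ℝ → Fin 3 → ℝ) (t : ℝ) : ℝ :=
  ∑ i, YY G t i * (YY G t i - (1 - t) * DY G t i)

theorem Par.c2 {s c : ℝ} {y : Fin 2 → ℂ} (h : Par s c y) : c ^ 2 = 1 - s ^ 2 := by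
  linarith [h.sc]

theorem pfA_KG {G : ℝ → Fin 3 → ℝ} (hG : ContDiff ℝ ∞ G) {s c : ℝ} {y : Fin 2 → ℂ}
    (h : Par s c y) : pfA ((KG G hG).1 (zz s c y)) (qq y) (rr s c y) = DD G (s ^ 2) := by
  unfold pfA DD
  rw [K_qJq hG h, K_rJr hG h, K_qr hG h, K_JqJr hG h, K_qJr hG h, K_Jqr hG h, Fin.sum_univ_three,
    h.c2]
  have e1 : YY G (s ^ 2) 1 = s ^ 2 * G (s ^ 2) 1 := by
    unfold YY
    simp
  have e2 : YY G (s ^ 2) 2 = s ^ 2 * G (s ^ 2) 2 := by
    unfold YY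
    simp
  rw [e1, e2]
  ring

theorem pp_KG {G : ℝ → Fin 3 → ℝ} (hG : ContDiff ℝ ∞ G) {s c : ℝ} {y : Fin 2 → ℂ}
    (h : Par s c y) (i : Fin 3) : pp (KG G hG) s c y i = YY G (s ^ 2) i := by
  fin_cases i
  · show (KG G hG).1 (zz s c y) ![qq y, J (qq y)] = _
    exact K_qJq hG h
  · show s * (KG G hG).1 (zz s c y) ![J (qq y), J (rr s c y)] = YY G (s ^ 2) 1
    rw [K_JqJr hG h]
    unfold YY
    simp
    ring
  · show s * (KG G hG).1 (zz s c y) ![J (rr s c y), qq y] = YY G (s ^ 2) 2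
    rw [bil_swap, K_qJr hG h]
    unfold YY
    simp
    ring

/-- `Ω ∧ K` -/
theorem wd_KG (Ω : TwoForm) {G : ℝ → Fin 3 → ℝ} (hG : ContDiff ℝ ∞ G) {s c : ℝ} {y : Fin 2 → ℂ}
    (h : Par s c y) : wd (Ω.1 (zz s c y)) ((KG G hG).1 (zz s c y)) (qq y) (rr s c y) =
      ∑ i, pp Ω s c y i * (YY G (s ^ 2) i - (1 - s ^ 2) * DY G (s ^ 2) i) +
      (YY G (s ^ 2) 0 * Ω.1 (zz s c y) ![rr s c y, J (rr s c y)] -
        s * G (s ^ 2) 1 * Ω.1 (zz s c y) ![qq y, rr s c y] -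
        s * G (s ^ 2) 2 * Ω.1 (zz s c y) ![J (qq y), rr s c y]) := by
  unfold wd
  rw [K_qJq hG h, K_rJr hG h, K_qr hG h, K_JqJr hG h, K_qJr hG h, K_Jqr hG h, Fin.sum_univ_three,
    h.c2]
  have e0 : pp Ω s c y 0 = Ω.1 (zz s c y) ![qq y, J (qq y)] := rfl
  have e1 : pp Ω s c y 1 = s * Ω.1 (zz s c y) ![J (qq y), J (rr s c y)] := rfl
  have e2 : pp Ω s c y 2 = -(s * Ω.1 (zz s c y) ![qq y, J (rr s c y)]) := by
    show s * Ω.1 (zz s c y) ![J (rr s c y), qq y] = _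
    rw [bil_swap]
    ring
  rw [e0, e1, e2]
  ring

end Pool.Agent.H820.RT
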